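import Mathlib

/-!
Division sudokus, affine collections of sudoku partitions, and the number `tau m`.
-/

set_option autoImplicit false

open Finset

namespace Pool.Agent.MP_72f993_co

/-- `L x y` is the entry in row `x` and column `y`: `L` is a latin square whose rows, columns and
symbols are indexed by `X`. -/
def IsLatin {X : Type} (L : X → X → X) : Prop :=
  (∀ x, Function.Bijective fun y => L x y) ∧ ∀ y, Function.Bijective fun x => L x y

/-- `P` is a sudoku partition of `X` (of rank `m`): a partition of `X` into `m` blocks, each of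
size `m`. -/
def IsSudokuPartition (m : ℕ) {X : Type} (P : Finset (Finset X)) : Prop :=
  P.card = m ∧ (∀ A ∈ P, A.card = m) ∧ ∀ x : X, ∃! A, A ∈ P ∧ x ∈ A

/-- `L` is a division sudoku of rank `m` with respect to the sudoku partition `P`. -/
def IsDivisionSudoku (m : ℕ) {X : Type} (L : X → X → X) (P : Finset (Finset X)) : Prop :=
  IsLatin L ∧ IsSudokuPartition m P ∧ ∀ A ∈ P, ∀ B ∈ P,
    (∀ s, ∃ x ∈ A, ∃ y ∈ B, L x y = s) ∧
    (∀ y, ∃ x ∈ A, L x y ∈ B) ∧
    (∀ x, ∃ y ∈ A, L x y ∈ B)

/-- `C` is an affine collection of sudoku partitions for `L`: `L` is a division sudoku with respect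
to each member, and blocks of different members share exactly one element. -/
def IsAffineCollection (m : ℕ) {X : Type} [DecidableEq X] (L : X → X → X)
    (C : Finset (Finset (Finset X))) : Prop :=
  (∀ P ∈ C, IsDivisionSudoku m L P) ∧
    ∀ P ∈ C, ∀ Q ∈ C, P ≠ Q → ∀ A ∈ P, ∀ B ∈ Q, (A ∩ B).card = 1

/-- The sizes of the affine collections for the division sudokus of rank `m` on a set with
`m ^ 2` elements. -/
def affineSizes (m : ℕ) : Set ℕ :=
  {k | ∃ L : Fin (m ^ 2) → Fin (m ^ 2) → Fin (m ^ 2), (∃ P, IsDivisionSudoku m L P) ∧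
    ∃ C, IsAffineCollection m L C ∧ C.card = k}

/-- The number `τ(m)`: the largest size of an affine collection for a division sudoku of
rank `m`. -/
noncomputable def tau (m : ℕ) : ℕ := sSup (affineSizes m)

/-- `M` is a family of `r` mutually orthogonal latin squares of order `m`. -/
def IsMOLS (m r : ℕ) (M : Fin r → Fin m → Fin m → Fin m) : Prop :=
  (∀ c, IsLatin (M c)) ∧
    ∀ c d, c ≠ d → Function.Bijective fun p : Fin m × Fin m => (M c p.1 p.2, M d p.1 p.2)

/-- The number `N(m)`: the largest number of mutually orthogonal latin squares of order `m`. -/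
noncomputable def molsNumber (m : ℕ) : ℕ := sSup {r | ∃ M, IsMOLS m r M}

end Pool.Agent.MP_72f993_co
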