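import Mathlib
import Pool.Agent.Lib.MP_72f993_co.Defs

/-!
Coordinate form of affine collections, products, the construction over finite fields, and the
passage to orthogonal latin squares.
-/

set_option autoImplicit false

open Finset

namespace Pool.Agent.MP_72f993_co

/-! ### Coordinates -/

/-- Coordinate form of an affine collection of `k` partitions on an arbitrary set of `m ^ 2`
elements. -/
def Good (m k : ℕ) : Prop :=
  ∃ (X T : Type) (_ : Fintype X) (_ : Fintype T) (_ : DecidableEq X) (_ : DecidableEq T)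
    (L : X → X → X) (P : Fin k → X → T),
    Fintype.card X = m ^ 2 ∧ Fintype.card T = m ∧ IsLatin L ∧
    (∀ c t, (univ.filter fun x => P c x = t).card = m) ∧
    (∀ c u v s, ∃ x y, P c x = u ∧ P c y = v ∧ L x y = s) ∧
    (∀ c u v y, ∃ x, P c x = u ∧ P c (L x y) = v) ∧
    (∀ c u v x, ∃ y, P c y = u ∧ P c (L x y) = v) ∧
    (∀ c d, c ≠ d → ∀ u v, ∃! x, P c x = u ∧ P d x = v)

theorem Good.mono {m k l : ℕ} (h : Good m k) (hl : l ≤ k) : Good m l := by
  obtain ⟨X, T, _, _, _, _, L, P, h1, h2, h3, h4, h5, h6, h7, h8⟩ := h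
  refine ⟨X, T, ‹_›, ‹_›, ‹_›, ‹_›, L, fun c => P (Fin.castLE hl c), h1, h2, h3,
    fun c => h4 _, fun c => h5 _, fun c => h6 _, fun c => h7 _, fun c d hcd => h8 _ _ ?_⟩
  intro h
  exact hcd (Fin.castLE_injective hl h)

/-- An affine collection gives coordinates. -/
theorem good_of_mem {m k : ℕ} (h : k ∈ affineSizes m) : Good m k := by
  obtain ⟨L, ⟨P0, hP0⟩, C, ⟨hC1, hC2⟩, hk⟩ := h
  have hlab : ∀ P : Finset (Finset (Fin (m ^ 2))), IsSudokuPartition m P →
      ∃ f : Fin (m ^ 2) → Fin m, ∃ e : Fin m → Finset (Fin (m ^ 2)),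
        (∀ t, e t ∈ P) ∧ (∀ x t, f x = t ↔ x ∈ e t) := by
    intro P hP
    obtain ⟨h1, h2, h3⟩ := hP
    have eq : Fin m ≃ P := (P.equivFinOfCardEq h1).symm
    choose g hg hgu using h3
    refine ⟨fun x => eq.symm ⟨g x, (hg x).1⟩, fun t => (eq t).1, fun t => (eq t).2, ?_⟩
    intro x t
    constructor
    · intro h
      rw [← h]
      simpa using (hg x).2
    · intro h
      have := hgu x (eq t).1 ⟨(eq t).2, h⟩
      rw [Equiv.symm_apply_eq]
      exact Subtype.ext this.symm
  have eC : Fin k ≃ C := (C.equivFinOfCardEq hk).symm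
  have hS : ∀ c : Fin k, IsDivisionSudoku m L (eC c).1 := fun c => hC1 _ (eC c).2
  choose f e he hfe using fun c : Fin k => hlab (eC c).1 (hS c).2.1
  refine ⟨Fin (m ^ 2), Fin m, inferInstance, inferInstance, inferInstance, inferInstance, L, f,
    by simp, by simp, hP0.1, ?_, ?_, ?_, ?_, ?_⟩
  · intro c t
    have : (univ.filter fun x => f c x = t) = e c t := by
      ext x
      simp [hfe]
    rw [this]
    exact (hS c).2.1.2.1 _ (he c t)
  · intro c u v s
    obtain ⟨x, hx, y, hy, hs⟩ := ((hS c).2.2 _ (he c u) _ (he c v)).1 s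
    exact ⟨x, y, (hfe _ _ _).2 hx, (hfe _ _ _).2 hy, hs⟩
  · intro c u v y
    obtain ⟨x, hx, hs⟩ := ((hS c).2.2 _ (he c u) _ (he c v)).2.1 y
    exact ⟨x, (hfe _ _ _).2 hx, (hfe _ _ _).2 hs⟩
  · intro c u v x
    obtain ⟨y, hy, hs⟩ := ((hS c).2.2 _ (he c u) _ (he c v)).2.2 x
    exact ⟨y, (hfe _ _ _).2 hy, (hfe _ _ _).2 hs⟩
  · intro c d hcd u v
    have hne : (eC c).1 ≠ (eC d).1 := fun h => hcd (eC.injective (Subtype.ext h))
    have h1 := hC2 _ (eC c).2 _ (eC d).2 hne _ (he c u) _ (he d v)
    obtain ⟨x, hx⟩ := Finset.card_eq_one.1 h1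
    refine ⟨x, ?_, ?_⟩
    · have : x ∈ e c u ∩ e d v := by rw [hx]; simp
      rw [Finset.mem_inter] at this
      exact ⟨(hfe _ _ _).2 this.1, (hfe _ _ _).2 this.2⟩
    · intro y hy
      have : y ∈ e c u ∩ e d v :=
        Finset.mem_inter.2 ⟨(hfe _ _ _).1 hy.1, (hfe _ _ _).1 hy.2⟩
      rw [hx] at this
      simpa using this

/-- Coordinates give an affine collection. -/
theorem mem_of_good {m k : ℕ} (hm : 2 ≤ m) (hk : 1 ≤ k) (h : Good m k) :
    k ∈ affineSizes m := by
  classical
  obtain ⟨X, T, _, _, _, _, L, P, h1, h2, h3, h4, h5, h6, h7, h8⟩ := h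
  have e : Fin (m ^ 2) ≃ X := (Fintype.equivFinOfCardEq h1).symm
  let L' : Fin (m ^ 2) → Fin (m ^ 2) → Fin (m ^ 2) := fun i j => e.symm (L (e i) (e j))
  let bl : Fin k → T → Finset (Fin (m ^ 2)) := fun c t => univ.filter fun i => P c (e i) = t
  let Q : Fin k → Finset (Finset (Fin (m ^ 2))) := fun c => univ.image (bl c)
  have hblc : ∀ c t, (bl c t).card = m := by
    intro c t
    refine Eq.trans ?_ (h4 c t)
    apply Finset.card_bij (fun i _ => e i)
    · intro i hi
      simpa [bl] using hi
    · intro i _ j _ hij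
      exact e.injective hij
    · intro x hx
      exact ⟨e.symm x, by simpa [bl] using hx, by simp⟩
  have hmem : ∀ c t i, i ∈ bl c t ↔ P c (e i) = t := by
    intro c t i
    simp [bl]
  have hblinj : ∀ c, Function.Injective (bl c) := by
    intro c t t' htt
    have : (bl c t).Nonempty := by
      rw [← Finset.card_pos, hblc]
      omega
    obtain ⟨i, hi⟩ := this
    have hi' := hi
    rw [htt] at hi'
    rw [hmem] at hi hi'
    rw [← hi, hi']
  have hlat : IsLatin L' := by
    constructor
    · intro i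
      have := (h3.1 (e i))
      exact e.symm.bijective.comp (this.comp e.bijective)
    · intro j
      have := (h3.2 (e j))
      exact e.symm.bijective.comp (this.comp e.bijective)
  have hdiv : ∀ c, IsDivisionSudoku m L' (Q c) := by
    intro c
    refine ⟨hlat, ⟨?_, ?_, ?_⟩, ?_⟩
    · rw [Finset.card_image_of_injective _ (hblinj c), Finset.card_univ, h2]
    · intro A hA
      simp only [Q, Finset.mem_image, Finset.mem_univ, true_and] at hA
      obtain ⟨t, rfl⟩ := hA
      exact hblc c t
    · intro i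
      refine ⟨bl c (P c (e i)), ⟨?_, ?_⟩, ?_⟩
      · simp [Q]
      · rw [hmem]
      · rintro A ⟨hA, hi⟩
        simp only [Q, Finset.mem_image, Finset.mem_univ, true_and] at hA
        obtain ⟨t, rfl⟩ := hA
        rw [hmem] at hi
        rw [hi]
    · intro A hA B hB
      simp only [Q, Finset.mem_image, Finset.mem_univ, true_and] at hA hB
      obtain ⟨u, rfl⟩ := hA
      obtain ⟨v, rfl⟩ := hB
      refine ⟨?_, ?_, ?_⟩
      · intro s
        obtain ⟨x, y, hx, hy, hs⟩ := h5 c u v (e s)
        refine ⟨e.symm x, by simp [hmem, hx], e.symm y, by simp [hmem, hy], ?_⟩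
        simp [L', hs]
      · intro j
        obtain ⟨x, hx, hs⟩ := h6 c u v (e j)
        refine ⟨e.symm x, by simp [hmem, hx], ?_⟩
        simp [hmem, L', hs]
      · intro i
        obtain ⟨y, hy, hs⟩ := h7 c u v (e i)
        refine ⟨e.symm y, by simp [hmem, hy], ?_⟩
        simp [hmem, L', hs]
  have hint : ∀ c d, c ≠ d → ∀ u v, (bl c u ∩ bl d v).card = 1 := by
    intro c d hcd u v
    obtain ⟨x, hx, hxu⟩ := h8 c d hcd u v
    rw [Finset.card_eq_one]
    refine ⟨e.symm x, ?_⟩
    ext i
    simp only [Finset.mem_inter, hmem, Finset.mem_singleton]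
    constructor
    · intro hi
      rw [← hxu (e i) hi]
      simp
    · rintro rfl
      simpa using hx
  have hQinj : Function.Injective Q := by
    intro c d hcd
    by_contra hne
    obtain ⟨t⟩ : Nonempty T := by
      rw [← Fintype.card_pos_iff, h2]
      omega
    have h9 : bl c t ∈ Q d := by
      rw [← hcd]
      simp [Q]
    simp only [Q, Finset.mem_image, Finset.mem_univ, true_and] at h9
    obtain ⟨t', ht'⟩ := h9
    have h10 := hint c d hne t t'
    rw [ht', Finset.inter_self, hblc] at h10
    omega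
  refine ⟨L', ⟨Q ⟨0, hk⟩, hdiv _⟩, univ.image Q, ⟨?_, ?_⟩, ?_⟩
  · intro R hR
    simp only [Finset.mem_image, Finset.mem_univ, true_and] at hR
    obtain ⟨c, rfl⟩ := hR
    exact hdiv c
  · intro R hR R' hR' hne A hA B hB
    simp only [Finset.mem_image, Finset.mem_univ, true_and] at hR hR'
    obtain ⟨c, rfl⟩ := hR
    obtain ⟨d, rfl⟩ := hR'
    have hcd : c ≠ d := fun h => hne (by rw [h])
    simp only [Q, Finset.mem_image, Finset.mem_univ, true_and] at hA hB
    obtain ⟨u, rfl⟩ := hA
    obtain ⟨v, rfl⟩ := hB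
    exact hint c d hcd u v
  · rw [Finset.card_image_of_injective _ hQinj, Finset.card_univ, Fintype.card_fin]

theorem bddAbove_affineSizes (m : ℕ) : BddAbove (affineSizes m) := by
  refine ⟨Fintype.card (Finset (Finset (Fin (m ^ 2)))), ?_⟩
  rintro k ⟨L, _, C, _, hk⟩
  rw [← hk]
  exact Finset.card_le_univ C

theorem le_tau_of_good {m k : ℕ} (hm : 2 ≤ m) (hk : 1 ≤ k) (h : Good m k) : k ≤ tau m :=
  le_csSup (bddAbove_affineSizes m) (mem_of_good hm hk h)

/-! ### Products -/

theorem Good.prod {m n k : ℕ} (h : Good m k) (h' : Good n k) : Good (m * n) k := by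
  obtain ⟨X, T, _, _, _, _, L, P, h1, h2, h3, h4, h5, h6, h7, h8⟩ := h
  obtain ⟨Y, U, _, _, _, _, M, Q, k1, k2, k3, k4, k5, k6, k7, k8⟩ := h'
  refine ⟨X × Y, T × U, inferInstance, inferInstance, inferInstance, inferInstance,
    fun p q => (L p.1 q.1, M p.2 q.2), fun c p => (P c p.1, Q c p.2), ?_, ?_, ?_, ?_, ?_, ?_,
    ?_, ?_⟩
  · rw [Fintype.card_prod, h1, k1, mul_pow]
  · rw [Fintype.card_prod, h2, k2]
  · exact ⟨fun p => (h3.1 p.1).prodMap (k3.1 p.2), fun p => (h3.2 p.1).prodMap (k3.2 p.2)⟩
  · rintro c ⟨t, u⟩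
    rw [← h4 c t, ← k4 c u, ← Finset.card_product]
    congr 1
    ext ⟨x, y⟩
    simp
  · rintro c ⟨u, u'⟩ ⟨v, v'⟩ ⟨s, s'⟩
    obtain ⟨x, y, a1, a2, a3⟩ := h5 c u v s
    obtain ⟨x', y', b1, b2, b3⟩ := k5 c u' v' s'
    exact ⟨(x, x'), (y, y'), by simp [a1, b1], by simp [a2, b2], by simp [a3, b3]⟩
  · rintro c ⟨u, u'⟩ ⟨v, v'⟩ ⟨s, s'⟩
    obtain ⟨x, a1, a2⟩ := h6 c u v s
    obtain ⟨x', b1, b2⟩ := k6 c u' v' s'
    exact ⟨(x, x'), by simp [a1, b1], by simp [a2, b2]⟩
  · rintro c ⟨u, u'⟩ ⟨v, v'⟩ ⟨s, s'⟩
    obtain ⟨x, a1, a2⟩ := h7 c u v s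
    obtain ⟨x', b1, b2⟩ := k7 c u' v' s'
    exact ⟨(x, x'), by simp [a1, b1], by simp [a2, b2]⟩
  · rintro c d hcd ⟨u, u'⟩ ⟨v, v'⟩
    obtain ⟨x, a1, a2⟩ := h8 c d hcd u v
    obtain ⟨x', b1, b2⟩ := k8 c d hcd u' v'
    refine ⟨(x, x'), by simp [a1, b1], ?_⟩
    rintro ⟨y, y'⟩ hy
    simp only [Prod.mk.injEq] at hy
    rw [a2 y ⟨hy.1.1, hy.2.1⟩, b2 y' ⟨hy.1.2, hy.2.2⟩]

/-! ### Prime powers -/

/-- Over a finite field there is a monic quadratic polynomial `t ^ 2 - a t - b` without roots. -/
theorem exists_no_root (K : Type) [Field K] [Fintype K] :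
    ∃ a b : K, ∀ t : K, t ^ 2 - a * t - b ≠ 0 := by
  classical
  have hinj : ¬ Function.Injective (fun p : K × K => (p.1 + p.2, p.1 * p.2)) := by
    intro h
    have := @h ((0 : K), (1 : K)) ((1 : K), (0 : K)) (by simp)
    simp at this
  have hsurj : ¬ Function.Surjective (fun p : K × K => (p.1 + p.2, p.1 * p.2)) := by
    intro h
    exact hinj (Finite.injective_iff_surjective.2 h)
  rw [Function.Surjective] at hsurj
  push Not at hsurj
  obtain ⟨⟨a, c⟩, h⟩ := hsurj
  refine ⟨a, -c, fun t ht => ?_⟩
  apply h (t, a - t)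
  simp only [Prod.mk.injEq]
  constructor
  · ring
  · linear_combination -ht

theorem good_field (K : Type) [Field K] [Fintype K] :
    Good (Fintype.card K) (Fintype.card K + 1) := by
  classical
  obtain ⟨a, b, hab⟩ := exists_no_root K
  have hb : b ≠ 0 := by
    intro h
    apply hab 0
    rw [h]
    ring
  have hab1 : 1 - a - b ≠ 0 := by
    have := hab 1
    intro h
    apply this
    linear_combination h
  -- the functionals
  let f : Option K → K × K → K := fun s x => match s with
    | none => x.1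
    | some s => x.2 + s * x.1
  let al : K × K → K × K := fun x => (b * x.2, x.1 + a * x.2)
  have fadd : ∀ s x y, f s (x + y) = f s x + f s y := by
    intro s x y
    cases s with
    | none => simp [f]
    | some s => simp [f]; ring
  have fsub : ∀ s x y, f s (x - y) = f s x - f s y := by
    intro s x y
    cases s with
    | none => simp [f]
    | some s => simp [f]; ring
  -- the key solvability
  have key : ∀ s u v, ∃ d, f s d = u ∧ f s (al d) = v := by
    intro s u v
    cases s with
    | none =>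
      refine ⟨(u, v / b), rfl, ?_⟩
      simp only [f, al]
      field_simp
    | some s =>
      -- b s^2 + a s - 1 ≠ 0
      have hD : 1 - a * s - b * s ^ 2 ≠ 0 := by
        intro h
        rcases eq_or_ne s 0 with rfl | hs
        · simp at h
        · apply hab s⁻¹
          have : s⁻¹ ^ 2 - a * s⁻¹ - b = s⁻¹ ^ 2 * (1 - a * s - b * s ^ 2) := by
            field_simp
          rw [this, h, mul_zero]
      -- d2 + s d1 = u, d1 + (a + s b) d2 = v
      obtain ⟨i, hi⟩ : ∃ i, (1 - a * s - b * s ^ 2) * i = 1 := ⟨_, mul_inv_cancel₀ hD⟩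
      refine ⟨((v - (a + s * b) * u) * i, (u - s * v) * i), ?_, ?_⟩
      · simp only [f]
        linear_combination u * hi
      · simp only [f, al]
        linear_combination v * hi
  have alinj : ∀ d, al d = 0 → d = 0 := by
    rintro ⟨d1, d2⟩ h
    simp only [al, Prod.mk_eq_zero] at h
    have h2 : d2 = 0 := by
      rcases mul_eq_zero.1 h.1 with h | h
      · exact absurd h hb
      · exact h
    have h1 := h.2
    rw [h2] at h1
    simp only [mul_zero, add_zero] at h1
    rw [h1, h2]
    rfl
  have al1inj : ∀ d, d - al d = 0 → d = 0 := by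
    rintro ⟨d1, d2⟩ h
    simp only [al, Prod.mk_sub_mk, Prod.mk_eq_zero] at h
    have h2 : d2 = 0 := by
      have : (1 - a - b) * d2 = 0 := by linear_combination h.1 + h.2
      rcases mul_eq_zero.1 this with h | h
      · exact absurd h hab1
      · exact h
    have h1 := h.1
    rw [h2] at h1
    simp only [mul_zero, sub_zero] at h1
    rw [h1, h2]
    rfl
  have alsub : ∀ x y, al (x - y) = al x - al y := by
    intro x y
    simp only [al, Prod.fst_sub, Prod.snd_sub, Prod.mk_sub_mk, Prod.mk.injEq]
    constructor <;> ring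
  have hcard : ∀ (s : Option K) (t : K),
      (univ.filter fun x : K × K => f s x = t).card = Fintype.card K := by
    intro s t
    rcases s with _ | s
    · have : (univ.filter fun x : K × K => f none x = t) = ({t} : Finset K) ×ˢ univ := by
        ext ⟨x, y⟩
        simp [f, eq_comm]
      rw [this, Finset.card_product]
      simp
    · have : (univ.filter fun x : K × K => f (some s) x = t) =
          univ.image (fun x : K => (x, t - s * x)) := by
        ext ⟨x, y⟩
        simp only [f, Finset.mem_filter, Finset.mem_univ, true_and, Finset.mem_image,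
          Prod.mk.injEq, exists_eq_left]
        constructor
        · intro h
          rw [← h]
          ring
        · intro h
          rw [← h]
          ring
      rw [this, Finset.card_image_of_injective]
      · exact Finset.card_univ
      · intro x y h
        simp only [Prod.mk.injEq] at h
        exact h.1
  let L : K × K → K × K → K × K := fun x y => y + al (x - y)
  have e : Fin (Fintype.card K + 1) ≃ Option K :=
    (Fintype.equivFinOfCardEq (by simp)).symm
  refine ⟨K × K, K, inferInstance, inferInstance, inferInstance, inferInstance, L,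
    fun c => f (e c), ?_, rfl, ⟨?_, ?_⟩, ?_, ?_, ?_, ?_, ?_⟩
  · rw [Fintype.card_prod, sq]
  · intro x
    apply Finite.injective_iff_bijective.1
    intro y y' h
    simp only [L, alsub] at h
    have h' : (y - y') - al (y - y') = 0 := by
      rw [alsub]
      linear_combination h
    exact sub_eq_zero.1 (al1inj _ h')
  · intro y
    apply Finite.injective_iff_bijective.1
    intro x x' h
    simp only [L, alsub] at h
    have h' : al (x - x') = 0 := by
      rw [alsub]
      linear_combination h
    exact sub_eq_zero.1 (alinj _ h')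
  · exact fun c t => hcard (e c) t
  · intro c u v s
    obtain ⟨d, h1, h2⟩ := key (e c) (u - v) (f (e c) s - v)
    refine ⟨(s - al d) + d, s - al d, ?_, ?_, ?_⟩
    · beta_reduce
      rw [fadd, fsub, h1, h2]
      ring
    · beta_reduce
      rw [fsub, h2]
      ring
    · simp only [L, add_sub_cancel_left]
      abel
  · intro c u v y
    obtain ⟨d, h1, h2⟩ := key (e c) (u - f (e c) y) (v - f (e c) y)
    refine ⟨y + d, ?_, ?_⟩
    · beta_reduce
      rw [fadd, h1]
      ring
    · simp only [L, add_sub_cancel_left]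
      rw [fadd, h2]
      ring
  · intro c u v x
    obtain ⟨d, h1, h2⟩ := key (e c) (f (e c) x - u) (v - u)
    refine ⟨x - d, ?_, ?_⟩
    · beta_reduce
      rw [fsub, h1]
      ring
    · simp only [L, sub_sub_cancel]
      rw [fadd, fsub, h1, h2]
      ring
  · intro c d hcd u v
    have hne : e c ≠ e d := fun h => hcd (e.injective h)
    have hinj : ∀ s s' : Option K, s ≠ s' → ∀ u v, ∃! x, f s x = u ∧ f s' x = v := by
      intro s s' hss u v
      rcases s with _ | s <;> rcases s' with _ | s'
      · exact absurd rfl hss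
      · refine ⟨(u, v - s' * u), ⟨rfl, by simp [f]⟩, ?_⟩
        rintro ⟨x, y⟩ ⟨h1, h2⟩
        simp only [f] at h1 h2
        rw [← h2, ← h1]
        simp
      · refine ⟨(v, u - s * v), ⟨by simp [f], rfl⟩, ?_⟩
        rintro ⟨x, y⟩ ⟨h1, h2⟩
        simp only [f] at h1 h2
        rw [← h2, ← h1]
        simp
      · have hs : s - s' ≠ 0 := by
          intro h
          apply hss
          rw [sub_eq_zero.1 h]
        refine ⟨((u - v) / (s - s'), u - s * ((u - v) / (s - s'))), ⟨?_, ?_⟩, ?_⟩
        · simp [f]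
        · simp only [f]
          field_simp
          ring
        · rintro ⟨x, y⟩ ⟨h1, h2⟩
          simp only [f] at h1 h2
          have hx : x = (u - v) / (s - s') := by
            rw [eq_div_iff hs]
            linear_combination h1 - h2
          rw [← hx]
          simp only [Prod.mk.injEq, true_and]
          linear_combination h1
    exact hinj _ _ hne u v

theorem good_primePow {p n : ℕ} (hp : p.Prime) (hn : 0 < n) : Good (p ^ n) (p ^ n + 1) := by
  have := Fact.mk hp
  have h : Nat.card (GaloisField p n) = p ^ n := GaloisField.card p n hn.ne'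
  have : Fintype (GaloisField p n) := Fintype.ofFinite _
  rw [Nat.card_eq_fintype_card] at h
  have := good_field (GaloisField p n)
  rwa [h] at this

/-- The bound of MacNeish for affine collections. -/
theorem good_macNeish (m : ℕ) : 1 < m → ∀ q,
    (∀ p, p.Prime → p ∣ m → q ≤ p ^ m.factorization p) → Good m (q + 1) := by
  induction m using Nat.recOnPosPrimePosCoprime with
  | prime_pow p n hp hn =>
    intro _ q hq
    have h := hq p hp (dvd_pow_self p hn.ne')
    rw [hp.factorization_pow] at h
    simp only [Finsupp.single_eq_same] at h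
    exact (good_primePow hp hn).mono (by omega)
  | zero => intro h; omega
  | one => intro h; omega
  | coprime a b ha hb hab iha ihb =>
    intro _ q hq
    apply Good.prod
    · apply iha ha
      intro p hp hpa
      have h := hq p hp (hpa.mul_right b)
      rwa [Nat.factorization_eq_of_coprime_left hab (Nat.mem_primeFactorsList (by omega) |>.2
        ⟨hp, hpa⟩)] at h
    · apply ihb hb
      intro p hp hpb
      have h := hq p hp (hpb.mul_left a)
      rwa [Nat.factorization_eq_of_coprime_right hab (Nat.mem_primeFactorsList (by omega) |>.2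
        ⟨hp, hpb⟩)] at h

/-! ### Orthogonal latin squares -/

theorem exists_mols {m r : ℕ} (h : Good m (r + 2)) : ∃ M, IsMOLS m r M := by
  classical
  obtain ⟨X, T, _, _, _, _, L, P, h1, h2, h3, h4, h5, h6, h7, h8⟩ := h
  have e : Fin m ≃ T := (Fintype.equivFinOfCardEq h2).symm
  let i0 : Fin (r + 2) := ⟨r, by omega⟩
  let i1 : Fin (r + 2) := ⟨r + 1, by omega⟩
  let em : Fin r → Fin (r + 2) := Fin.castLE (by omega)
  have hem : Function.Injective em := Fin.castLE_injective _
  have hne01 : i0 ≠ i1 := by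
    intro h
    simp only [i0, i1, Fin.mk.injEq] at h
    omega
  have hne0 : ∀ c, em c ≠ i0 := by
    intro c h
    have := congrArg Fin.val h
    simp only [em, i0, Fin.val_castLE] at this
    have := c.2
    omega
  have hne1 : ∀ c, em c ≠ i1 := by
    intro c h
    have := congrArg Fin.val h
    simp only [em, i1, Fin.val_castLE] at this
    have := c.2
    omega
  choose pt hpt hptu using fun u v : T => h8 i0 i1 hne01 u v
  let M : Fin r → Fin m → Fin m → Fin m := fun c i j => e.symm (P (em c) (pt (e i) (e j)))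
  refine ⟨M, ?_, ?_⟩
  · intro c
    constructor
    · intro i
      apply Finite.injective_iff_bijective.1
      intro j j' h
      simp only [M, EmbeddingLike.apply_eq_iff_eq] at h
      obtain ⟨x, _, hx⟩ := h8 (em c) i0 (hne0 c) (P (em c) (pt (e i) (e j))) (e i)
      have a1 := hx (pt (e i) (e j)) ⟨rfl, (hpt _ _).1⟩
      have a2 := hx (pt (e i) (e j')) ⟨h.symm, (hpt _ _).1⟩
      have a3 := (hpt (e i) (e j)).2
      rw [a1, ← a2, (hpt (e i) (e j')).2] at a3
      exact (e.injective a3).symm
    · intro j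
      apply Finite.injective_iff_bijective.1
      intro i i' h
      simp only [M, EmbeddingLike.apply_eq_iff_eq] at h
      obtain ⟨x, _, hx⟩ := h8 (em c) i1 (hne1 c) (P (em c) (pt (e i) (e j))) (e j)
      have a1 := hx (pt (e i) (e j)) ⟨rfl, (hpt _ _).2⟩
      have a2 := hx (pt (e i') (e j)) ⟨h.symm, (hpt _ _).2⟩
      have a3 := (hpt (e i) (e j)).1
      rw [a1, ← a2, (hpt (e i') (e j)).1] at a3
      exact (e.injective a3).symm
  · intro c d hcd
    apply Finite.injective_iff_bijective.1
    rintro ⟨i, j⟩ ⟨i', j'⟩ h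
    simp only [M, Prod.mk.injEq, EmbeddingLike.apply_eq_iff_eq] at h
    have hne : em c ≠ em d := fun h => hcd (hem h)
    obtain ⟨x, _, hx⟩ := h8 (em c) (em d) hne (P (em c) (pt (e i) (e j)))
      (P (em d) (pt (e i) (e j)))
    have a1 := hx (pt (e i) (e j)) ⟨rfl, rfl⟩
    have a2 := hx (pt (e i') (e j')) ⟨h.1.symm, h.2.symm⟩
    have a3 := (hpt (e i) (e j)).1
    have a4 := (hpt (e i) (e j)).2
    rw [a1, ← a2, (hpt (e i') (e j')).1] at a3
    rw [a1, ← a2, (hpt (e i') (e j')).2] at a4
    rw [(e.injective a3), (e.injective a4)]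

theorem bddAbove_mols {m : ℕ} (hm : 2 ≤ m) : BddAbove {r | ∃ M, IsMOLS m r M} := by
  classical
  refine ⟨Fintype.card (Fin m → Fin m → Fin m), ?_⟩
  rintro r ⟨M, hM, hM'⟩
  have : Function.Injective M := by
    intro c d hcd
    by_contra hne
    have h := (hM' c d hne).2 (⟨0, by omega⟩, ⟨1, by omega⟩)
    obtain ⟨p, hp⟩ := h
    rw [hcd] at hp
    simp only [Prod.mk.injEq] at hp
    have := hp.1.symm.trans hp.2
    simp at this
  have h := Fintype.card_le_of_injective M this
  rwa [Fintype.card_fin] at h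

theorem good_tau {m : ℕ} (hm : 2 ≤ m) : Good m (tau m) := by
  have hne : (affineSizes m).Nonempty :=
    ⟨1, mem_of_good hm le_rfl (good_macNeish m hm 0 (by simp))⟩
  exact good_of_mem (Nat.sSup_mem hne (bddAbove_affineSizes m))

theorem tau_le {m : ℕ} (hm : 2 ≤ m) : tau m ≤ molsNumber m + 2 := by
  have h1 : Good m (tau m) := good_tau hm
  rcases Nat.lt_or_ge (tau m) 2 with h2 | h2
  · omega
  · have h3 : Good m ((tau m - 2) + 2) := by
      rwa [Nat.sub_add_cancel h2]
    have h4 : tau m - 2 ≤ molsNumber m := le_csSup (bddAbove_mols hm) (exists_mols h3)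
    omega

end Pool.Agent.MP_72f993_co
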