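import Mathlib

namespace Pool.Agent.MP_72f993_co

namespace Tarry

open Finset Module

/-- transversal design TD(4,6) given by the group coordinates of its 36 blocks -/
def TD (f : Fin 36 → Fin 4 → Fin 6) : Prop :=
  ∀ i k : Fin 4, i ≠ k → Function.Bijective fun b => (f b i, f b k)

section A

variable {f : Fin 36 → Fin 4 → Fin 6}

theorem sum_fiber (h : TD f) {α : Type*} [AddCommMonoid α] {i k : Fin 4} (hik : i ≠ k) (a : Fin 6)
    (g : Fin 6 → α) : ∑ b ∈ univ.filter (fun b => f b i = a), g (f b k) = ∑ c, g c := by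
  refine Finset.sum_bij (fun b _ => f b k) (fun _ _ => mem_univ _) ?_ ?_ (fun _ _ => rfl)
  · intro b hb b' hb' e
    have h1 := (mem_filter.mp hb).2
    have h2 := (mem_filter.mp hb').2
    exact (h i k hik).1 (by simp [h1, h2, e])
  · intro c _
    obtain ⟨b, hb⟩ := (h i k hik).2 (a, c)
    have hb1 := congrArg Prod.fst hb
    have hb2 := congrArg Prod.snd hb
    simp only at hb1 hb2
    exact ⟨b, mem_filter.mpr ⟨mem_univ _, hb1⟩, hb2⟩

theorem card_fiber (h : TD f) (i : Fin 4) (a : Fin 6) :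
    (univ.filter (fun b => f b i = a)).card = 6 := by
  have hk : ∃ k : Fin 4, i ≠ k := by revert i; decide
  obtain ⟨k, hk⟩ := hk
  have := sum_fiber h hk a (fun _ => 1)
  simpa using this

/-- incidence matrix over `F_2` -/
def M (f : Fin 36 → Fin 4 → Fin 6) : Matrix (Fin 36) (Fin 4 × Fin 6) (ZMod 2) :=
  fun b p => if f b p.1 = p.2 then 1 else 0

theorem M_mulVec (u : Fin 4 × Fin 6 → ZMod 2) (b : Fin 36) :
    (M f).mulVec u b = ∑ k, u (k, f b k) := by
  simp only [Matrix.mulVec, dotProduct, M, Fintype.sum_prod_type, ite_mul, one_mul, zero_mul]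
  refine sum_congr rfl fun k _ => ?_
  simp

theorem MT_mulVec (w : Fin 36 → ZMod 2) (p : Fin 4 × Fin 6) :
    (M f).transpose.mulVec w p = ∑ b ∈ univ.filter (fun b => f b p.1 = p.2), w b := by
  simp only [Matrix.mulVec, dotProduct, M, Matrix.transpose_apply, ite_mul, one_mul, zero_mul,
    sum_filter]

/-- group sums -/
def sig : (Fin 4 × Fin 6 → ZMod 2) →ₗ[ZMod 2] (Fin 4 → ZMod 2) where
  toFun u i := ∑ a, u (i, a)
  map_add' u v := by funext i; simp [sum_add_distrib]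
  map_smul' c u := by funext i; simp [mul_sum]

theorem MTM (h : TD f) (u : Fin 4 × Fin 6 → ZMod 2) (hu : u ∈ LinearMap.ker sig) :
    (M f).transpose.mulVec ((M f).mulVec u) = 0 := by
  have hs : ∀ i, ∑ a, u (i, a) = 0 := fun i => congrFun (LinearMap.mem_ker.mp hu) i
  funext p
  obtain ⟨i, a⟩ := p
  rw [MT_mulVec]
  simp only [M_mulVec, Pi.zero_apply]
  rw [sum_comm]
  refine sum_eq_zero fun k _ => ?_
  by_cases hik : i = k
  · subst hik
    have : ∀ b ∈ univ.filter (fun b => f b i = a), u (i, f b i) = u (i, a) := by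
      intro b hb; rw [(mem_filter.mp hb).2]
    rw [sum_congr rfl this, sum_const, card_fiber h]
    have : (6 : ZMod 2) = 0 := by decide
    rw [nsmul_eq_mul]
    have h6 : ((6 : ℕ) : ZMod 2) = 0 := by decide
    rw [h6, zero_mul]
  · rw [sum_fiber h hik a (fun c => u (k, c))]
    exact hs k

theorem ker_dim (h : TD f) : 4 ≤ finrank (ZMod 2) (LinearMap.ker (M f).mulVecLin) := by
  set T := (M f).mulVecLin with hT
  set V0 := LinearMap.ker (sig) with hV0
  have e1 : finrank (ZMod 2) (LinearMap.range T) + finrank (ZMod 2) (LinearMap.ker T) = 24 := by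
    rw [LinearMap.finrank_range_add_finrank_ker]; simp
  have e2 : finrank (ZMod 2) (LinearMap.range sig) + finrank (ZMod 2) V0 = 24 := by
    rw [LinearMap.finrank_range_add_finrank_ker]; simp
  have e3 : finrank (ZMod 2) (LinearMap.range sig) ≤ 4 := by
    refine (Submodule.finrank_le _).trans ?_
    simp
  have e4 : finrank (ZMod 2) (LinearMap.range (M f).transpose.mulVecLin)
      + finrank (ZMod 2) (LinearMap.ker (M f).transpose.mulVecLin) = 36 := by
    rw [LinearMap.finrank_range_add_finrank_ker]; simp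
  have e5 : finrank (ZMod 2) (LinearMap.range (M f).transpose.mulVecLin)
      = finrank (ZMod 2) (LinearMap.range T) := by
    have := Matrix.rank_transpose (M f)
    simpa [Matrix.rank] using this
  have e6 : finrank (ZMod 2) (LinearMap.range (T.domRestrict V0))
      + finrank (ZMod 2) (LinearMap.ker (T.domRestrict V0)) = finrank (ZMod 2) V0 :=
    LinearMap.finrank_range_add_finrank_ker _
  have e7 : finrank (ZMod 2) (LinearMap.range (T.domRestrict V0))
      ≤ finrank (ZMod 2) (LinearMap.ker (M f).transpose.mulVecLin) := by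
    apply Submodule.finrank_mono
    rintro w ⟨⟨u, hu⟩, rfl⟩
    rw [LinearMap.mem_ker]
    exact MTM h u hu
  have e8 : finrank (ZMod 2) (LinearMap.ker (T.domRestrict V0))
      ≤ finrank (ZMod 2) (LinearMap.ker T) := by
    let g : LinearMap.ker (T.domRestrict V0) →ₗ[ZMod 2] LinearMap.ker T :=
      LinearMap.codRestrict _ (V0.subtype ∘ₗ (LinearMap.ker (T.domRestrict V0)).subtype) (by
        rintro ⟨⟨u, hu⟩, hu'⟩
        exact hu')
    refine LinearMap.finrank_le_finrank_of_injective (f := g) ?_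
    intro x y hxy
    apply Subtype.ext
    apply Subtype.ext
    exact congrArg (fun z : LinearMap.ker T => (z : Fin 4 × Fin 6 → ZMod 2)) hxy
  omega

/-- there is an even set which is not constant on some group -/
theorem exists_even (h : TD f) : ∃ u : Fin 4 × Fin 6 → ZMod 2,
    (∀ b, ∑ k, u (k, f b k) = 0) ∧ ∃ i a a', u (i, a) ≠ u (i, a') := by
  by_contra hcon
  push Not at hcon
  -- all kernel elements are group constant
  let E : (Fin 4 → ZMod 2) →ₗ[ZMod 2] (Fin 4 × Fin 6 → ZMod 2) :=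
    { toFun := fun c p => c p.1
      map_add' := fun _ _ => rfl
      map_smul' := fun _ _ => rfl }
  have hle : LinearMap.ker (M f).mulVecLin ≤ LinearMap.range E := by
    intro u hu
    have hu' : ∀ b, ∑ k, u (k, f b k) = 0 := by
      intro b
      rw [← M_mulVec]
      exact congrFun (LinearMap.mem_ker.mp hu) b
    refine ⟨fun i => u (i, 0), ?_⟩
    funext p
    exact hcon u hu' p.1 0 p.2
  have hfr : finrank (ZMod 2) (LinearMap.range E) ≤ 4 := by
    refine (LinearMap.finrank_range_le E).trans ?_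
    simp
  have heq : LinearMap.ker (M f).mulVecLin = LinearMap.range E :=
    Submodule.eq_of_le_of_finrank_le hle (hfr.trans (ker_dim h))
  have h1 : E (fun i => if i = 0 then 1 else 0) ∈ LinearMap.ker (M f).mulVecLin := by
    rw [heq]; exact ⟨_, rfl⟩
  have h2 := congrFun (LinearMap.mem_ker.mp h1) 0
  have h3 : (M f).mulVec (E (fun i => if i = 0 then 1 else 0)) 0 = 1 := by
    rw [M_mulVec]
    simp [E]
  have h4 : (1 : ZMod 2) = 0 := by
    rw [← h3]; exact h2
  exact absurd h4 (by decide)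


/-- number of marked points on a block -/
def cnt (f : Fin 36 → Fin 4 → Fin 6) (Y : Fin 4 → Finset (Fin 6)) (b : Fin 36) : ℕ :=
  ∑ k, if f b k ∈ Y k then 1 else 0

/-- every block meets `Y` in an even number of points -/
def Ev (f : Fin 36 → Fin 4 → Fin 6) (Y : Fin 4 → Finset (Fin 6)) : Prop :=
  ∀ b, Even (cnt f Y b)

theorem cnt_sum (h : TD f) (Y : Fin 4 → Finset (Fin 6)) (i : Fin 4) (a : Fin 6) :
    ∑ b ∈ univ.filter (fun b => f b i = a), cnt f Y b
      = (if a ∈ Y i then 6 else 0) + ∑ k ∈ univ.erase i, (Y k).card := by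
  unfold cnt
  rw [sum_comm, ← Finset.add_sum_erase _ _ (mem_univ i)]
  congr 1
  · have : ∀ b ∈ univ.filter (fun b => f b i = a),
        (if f b i ∈ Y i then 1 else 0) = (if a ∈ Y i then 1 else 0) := by
      intro b hb; rw [(mem_filter.mp hb).2]
    rw [sum_congr rfl this, sum_const, card_fiber h]
    split_ifs <;> simp
  · refine sum_congr rfl fun k hk => ?_
    have hik : i ≠ k := fun e => (mem_erase.mp hk).1 e.symm
    rw [sum_fiber h hik a (fun c => if c ∈ Y k then 1 else 0)]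
    simp

theorem cnt_le (Y : Fin 4 → Finset (Fin 6)) (b : Fin 36) : cnt f Y b ≤ 4 := by
  unfold cnt
  calc _ ≤ ∑ k : Fin 4, 1 := sum_le_sum fun k _ => by split_ifs <;> simp
    _ = 4 := by simp

theorem cnt_pos {Y : Fin 4 → Finset (Fin 6)} {b : Fin 36} {i : Fin 4} (hb : f b i ∈ Y i) :
    0 < cnt f Y b := by
  unfold cnt
  refine sum_pos' (fun _ _ => Nat.zero_le _) ⟨i, mem_univ _, ?_⟩
  simp [hb]

theorem cnt_two_le {Y : Fin 4 → Finset (Fin 6)} (hY : Ev f Y) {b : Fin 36} {i : Fin 4}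
    (hb : f b i ∈ Y i) : 2 ≤ cnt f Y b := by
  have h1 := cnt_pos hb
  obtain ⟨r, hr⟩ := hY b
  omega

/-- a point of `Y` sees at least six others -/
theorem six_le (h : TD f) {Y : Fin 4 → Finset (Fin 6)} (hY : Ev f Y) {i : Fin 4} {a : Fin 6}
    (ha : a ∈ Y i) : 6 ≤ ∑ k ∈ univ.erase i, (Y k).card := by
  have h1 := cnt_sum h Y i a
  rw [if_pos ha] at h1
  have h2 : ∑ b ∈ univ.filter (fun b => f b i = a), 2
      ≤ ∑ b ∈ univ.filter (fun b => f b i = a), cnt f Y b := by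
    refine sum_le_sum fun b hb => cnt_two_le hY (i := i) ?_
    rw [(mem_filter.mp hb).2]; exact ha
  rw [sum_const, card_fiber h, h1, smul_eq_mul] at h2
  omega

theorem even_sum (h : TD f) {Y : Fin 4 → Finset (Fin 6)} (hY : Ev f Y) (i : Fin 4) :
    Even (∑ k ∈ univ.erase i, (Y k).card) := by
  have h1 := cnt_sum h Y i 0
  have h2 : Even (∑ b ∈ univ.filter (fun b => f b i = 0), cnt f Y b) :=
    Finset.even_sum _ fun b _ => hY b
  rw [h1] at h2
  obtain ⟨r, hr⟩ := h2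
  split_ifs at hr with h0
  · exact ⟨r - 3, by omega⟩
  · exact ⟨r, by omega⟩

/-- if a point of `Y` sees exactly six others, all blocks through it have exactly two -/
theorem eq_two (h : TD f) {Y : Fin 4 → Finset (Fin 6)} (hY : Ev f Y) {i : Fin 4}
    (h6 : ∑ k ∈ univ.erase i, (Y k).card = 6) {b : Fin 36} (hb : f b i ∈ Y i) :
    cnt f Y b = 2 := by
  have h1 := cnt_sum h Y i (f b i)
  rw [if_pos hb, h6] at h1
  have h2 : ∀ b' ∈ univ.filter (fun b' => f b' i = f b i), 2 ≤ cnt f Y b' := by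
    intro b' hb'
    refine cnt_two_le hY (i := i) ?_
    rw [(mem_filter.mp hb').2]; exact hb
  have h3 : ∑ b' ∈ univ.filter (fun b' => f b' i = f b i), 2
      = ∑ b' ∈ univ.filter (fun b' => f b' i = f b i), cnt f Y b' := by
    rw [sum_const, card_fiber h, h1]; rfl
  have h4 := (Finset.sum_eq_sum_iff_of_le h2).mp h3
  exact (h4 b (by simp)).symm

/-- complement in two groups -/
def cpl (Y : Fin 4 → Finset (Fin 6)) (i k : Fin 4) : Fin 4 → Finset (Fin 6) :=
  fun l => if l = i ∨ l = k then (Y l)ᶜ else Y l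

theorem cpl_ev {Y : Fin 4 → Finset (Fin 6)} (hY : Ev f Y) {i k : Fin 4} (hik : i ≠ k) :
    Ev f (cpl Y i k) := by
  intro b
  have key : cnt f (cpl Y i k) b + 2 * ((if f b i ∈ Y i then 1 else 0) +
      (if f b k ∈ Y k then 1 else 0)) = cnt f Y b + 2 := by
    unfold cnt
    rw [← Finset.add_sum_erase _ _ (mem_univ i), ← Finset.add_sum_erase _ _
      (mem_erase.mpr ⟨hik.symm, mem_univ k⟩), ← Finset.add_sum_erase (univ : Finset (Fin 4))
      (fun k => if f b k ∈ Y k then 1 else 0) (mem_univ i), ← Finset.add_sum_erase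
      (univ.erase i) (fun k => if f b k ∈ Y k then 1 else 0) (mem_erase.mpr ⟨hik.symm, mem_univ k⟩)]
    have h1 : ∑ l ∈ (univ.erase i).erase k, (if f b l ∈ cpl Y i k l then 1 else 0)
        = ∑ l ∈ (univ.erase i).erase k, (if f b l ∈ Y l then 1 else 0) := by
      refine sum_congr rfl fun l hl => ?_
      have hlk := (mem_erase.mp hl).1
      have hli := (mem_erase.mp (mem_erase.mp hl).2).1
      simp [cpl, hlk, hli]
    rw [h1]
    have h2 : (if f b i ∈ cpl Y i k i then 1 else 0) + (if f b i ∈ Y i then 1 else 0) = 1 := by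
      by_cases hh : f b i ∈ Y i <;> simp [cpl, hh]
    have h3 : (if f b k ∈ cpl Y i k k then 1 else 0) + (if f b k ∈ Y k then 1 else 0) = 1 := by
      by_cases hh : f b k ∈ Y k <;> simp [cpl, hh]
    omega
  obtain ⟨r, hr⟩ := hY b
  rw [hr] at key
  refine ⟨r + 1 - ((if f b i ∈ Y i then 1 else 0) + (if f b k ∈ Y k then 1 else 0)), ?_⟩
  omega

theorem core (x a b c : ℕ) (px : x % 2 = 0) (pa : a % 2 = 0) (pb : b % 2 = 0) (pc : c % 2 = 0)
    (bx : 6 ≤ a + b + c) (ba : 0 < a → 6 ≤ x + b + c) (bb : 0 < b → 6 ≤ x + a + c)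
    (bc : 0 < c → 6 ≤ x + a + b)
    (c1 : x + a ≤ 6) (c2 : x + b ≤ 6) (c3 : x + c ≤ 6) (c4 : a + b ≤ 6) (c5 : a + c ≤ 6)
    (c6 : b + c ≤ 6) (hx : 0 < x) (hx' : x < 6) :
    (x = 2 ∧ a = 2 ∧ b = 2 ∧ c = 2) ∨ (x = 4 ∧ a = 2 ∧ b = 2 ∧ c = 2) ∨
      (x = 2 ∧ a = 4 ∧ b = 2 ∧ c = 2) ∨ (x = 2 ∧ a = 2 ∧ b = 4 ∧ c = 2) ∨
      (x = 2 ∧ a = 2 ∧ b = 2 ∧ c = 4) := by
  have hx2 : x = 2 ∨ x = 4 := by clear ba bb bc; omega
  rcases hx2 with rfl | rfl
  · by_cases ha : a = 4
    · subst ha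
      have := ba (by norm_num)
      clear ba bb bc
      have h1 : b = 2 := by omega
      have h2 : c = 2 := by omega
      subst h1 h2; simp
    by_cases hb : b = 4
    · subst hb
      have := bb (by norm_num)
      clear ba bb bc
      have h1 : a = 2 := by omega
      have h2 : c = 2 := by omega
      subst h1 h2; simp
    by_cases hc : c = 4
    · subst hc
      have := bc (by norm_num)
      clear ba bb bc
      have h1 : a = 2 := by omega
      have h2 : b = 2 := by omega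
      subst h1 h2; simp
    clear ba bb bc
    have h1 : a ≤ 2 := by omega
    have h2 : b ≤ 2 := by omega
    have h3 : c ≤ 2 := by omega
    have h4 : a = 2 := by omega
    have h5 : b = 2 := by omega
    have h6 : c = 2 := by omega
    subst h4 h5 h6; simp
  · clear ba bb bc
    have h4 : a = 2 := by omega
    have h5 : b = 2 := by omega
    have h6 : c = 2 := by omega
    subst h4 h5 h6; simp

theorem arith (g0 g1 g2 g3 : ℕ)
    (a0 : ∃ r, g0 + g1 + g2 + g3 = g0 + (r + r)) (a1 : ∃ r, g0 + g1 + g2 + g3 = g1 + (r + r))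
    (a2 : ∃ r, g0 + g1 + g2 + g3 = g2 + (r + r)) (a3 : ∃ r, g0 + g1 + g2 + g3 = g3 + (r + r))
    (b0 : 0 < g0 → 6 + g0 ≤ g0 + g1 + g2 + g3) (b1 : 0 < g1 → 6 + g1 ≤ g0 + g1 + g2 + g3)
    (b2 : 0 < g2 → 6 + g2 ≤ g0 + g1 + g2 + g3) (b3 : 0 < g3 → 6 + g3 ≤ g0 + g1 + g2 + g3)
    (c01 : g0 + g1 ≤ 6) (c02 : g0 + g2 ≤ 6) (c03 : g0 + g3 ≤ 6) (c12 : g1 + g2 ≤ 6)
    (c13 : g1 + g3 ≤ 6) (c23 : g2 + g3 ≤ 6)
    (hw : (0 < g0 ∧ g0 < 6) ∨ (0 < g1 ∧ g1 < 6) ∨ (0 < g2 ∧ g2 < 6) ∨ (0 < g3 ∧ g3 < 6)) :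
    (g0 = 2 ∧ g1 = 2 ∧ g2 = 2 ∧ g3 = 2) ∨ (g0 = 4 ∧ g1 = 2 ∧ g2 = 2 ∧ g3 = 2) ∨
      (g0 = 2 ∧ g1 = 4 ∧ g2 = 2 ∧ g3 = 2) ∨ (g0 = 2 ∧ g1 = 2 ∧ g2 = 4 ∧ g3 = 2) ∨
      (g0 = 2 ∧ g1 = 2 ∧ g2 = 2 ∧ g3 = 4) := by
  obtain ⟨r0, a0⟩ := a0
  obtain ⟨r1, a1⟩ := a1
  obtain ⟨r2, a2⟩ := a2
  obtain ⟨r3, a3⟩ := a3
  have p0 : g0 % 2 = 0 := by clear b0 b1 b2 b3 hw; omega
  have p1 : g1 % 2 = 0 := by clear b0 b1 b2 b3 hw; omega
  have p2 : g2 % 2 = 0 := by clear b0 b1 b2 b3 hw; omega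
  have p3 : g3 % 2 = 0 := by clear b0 b1 b2 b3 hw; omega
  clear a0 a1 a2 a3
  have b0' : 0 < g0 → 6 ≤ g1 + g2 + g3 := fun h => by have := b0 h; clear b0 b1 b2 b3 hw; omega
  have b1' : 0 < g1 → 6 ≤ g0 + g2 + g3 := fun h => by have := b1 h; clear b0 b1 b2 b3 hw; omega
  have b2' : 0 < g2 → 6 ≤ g0 + g1 + g3 := fun h => by have := b2 h; clear b0 b1 b2 b3 hw; omega
  have b3' : 0 < g3 → 6 ≤ g0 + g1 + g2 := fun h => by have := b3 h; clear b0 b1 b2 b3 hw; omega
  rcases hw with h | h | h | h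
  · exact core g0 g1 g2 g3 p0 p1 p2 p3 (b0' h.1) b1' b2' b3' c01 c02 c03 c12 c13 c23 h.1 h.2
  · rcases core g1 g0 g2 g3 p1 p0 p2 p3 (b1' h.1) (fun q => by rw [add_comm g1 g2, add_assoc, add_comm g1 g3, ← add_assoc, add_comm (g2+g3), ← add_assoc]; have := b0' q; omega) (fun q => by have := b2' q; omega)
      (fun q => by have := b3' q; omega) (by omega) c12 c13 c02 c03 c23 h.1 h.2 with g | g | g | g | g
    · obtain ⟨rfl, rfl, rfl, rfl⟩ := g; simp
    · obtain ⟨rfl, rfl, rfl, rfl⟩ := g; simp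
    · obtain ⟨rfl, rfl, rfl, rfl⟩ := g; simp
    · obtain ⟨rfl, rfl, rfl, rfl⟩ := g; simp
    · obtain ⟨rfl, rfl, rfl, rfl⟩ := g; simp
  · rcases core g2 g0 g1 g3 p2 p0 p1 p3 (b2' h.1) (fun q => by have := b0' q; omega)
      (fun q => by have := b1' q; omega) (fun q => by have := b3' q; omega) (by omega) (by omega)
      c23 c01 c03 c13 h.1 h.2 with g | g | g | g | g
    · obtain ⟨rfl, rfl, rfl, rfl⟩ := g; simp
    · obtain ⟨rfl, rfl, rfl, rfl⟩ := g; simp
    · obtain ⟨rfl, rfl, rfl, rfl⟩ := g; simp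
    · obtain ⟨rfl, rfl, rfl, rfl⟩ := g; simp
    · obtain ⟨rfl, rfl, rfl, rfl⟩ := g; simp
  · rcases core g3 g0 g1 g2 p3 p0 p1 p2 (b3' h.1) (fun q => by have := b0' q; omega)
      (fun q => by have := b1' q; omega) (fun q => by have := b2' q; omega) (by omega) (by omega)
      (by omega) c01 c02 c12 h.1 h.2 with g | g | g | g | g
    · obtain ⟨rfl, rfl, rfl, rfl⟩ := g; simp
    · obtain ⟨rfl, rfl, rfl, rfl⟩ := g; simp
    · obtain ⟨rfl, rfl, rfl, rfl⟩ := g; simp
    · obtain ⟨rfl, rfl, rfl, rfl⟩ := g; simp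
    · obtain ⟨rfl, rfl, rfl, rfl⟩ := g; simp

theorem no_four (h : TD f) {Y : Fin 4 → Finset (Fin 6)} (hY : Ev f Y) {i : Fin 4}
    (h4 : (Y i).card = 4) (h2 : ∀ k, k ≠ i → (Y k).card = 2) : False := by
  have hsum : ∑ k ∈ univ.erase i, (Y k).card = 6 := by
    rw [sum_congr rfl (fun k hk => h2 k (mem_erase.mp hk).1), sum_const]
    simp
  have hk : ∃ k : Fin 4, k ≠ i := by clear h4 h2 hsum; revert i; decide
  obtain ⟨k, hk⟩ := hk
  have hsum2 : ∑ l ∈ univ.erase k, (Y l).card = 8 := by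
    have e1 := Finset.add_sum_erase (univ : Finset (Fin 4)) (fun l => (Y l).card) (mem_univ i)
    have e2 := Finset.add_sum_erase (univ : Finset (Fin 4)) (fun l => (Y l).card) (mem_univ k)
    rw [hsum, h4] at e1
    rw [h2 k hk] at e2
    omega
  have hne : (Y k).Nonempty := by rw [← card_pos, h2 k hk]; norm_num
  obtain ⟨a, ha⟩ := hne
  have h14 := cnt_sum h Y k a
  rw [if_pos ha, hsum2] at h14
  have hex : ∃ b ∈ univ.filter (fun b => f b k = a), 2 < cnt f Y b := by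
    by_contra hcon
    push Not at hcon
    have := sum_le_sum hcon
    rw [h14, sum_const, card_fiber h] at this
    simp at this
  obtain ⟨b, hb, hb2⟩ := hex
  have hb4 : cnt f Y b = 4 := by
    have := cnt_le (f := f) Y b
    obtain ⟨r, hr⟩ := hY b
    omega
  have hbi : f b i ∈ Y i := by
    by_contra hni
    have : cnt f Y b < ∑ k : Fin 4, 1 := by
      unfold cnt
      refine sum_lt_sum (fun k _ => by split_ifs <;> simp) ⟨i, mem_univ _, ?_⟩
      simp [hni]
    rw [hb4] at this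
    simp at this
  have := eq_two h hY hsum hbi
  omega

/-- an even set with exactly two points in each group -/
theorem exists_two (h : TD f) : ∃ Y : Fin 4 → Finset (Fin 6), Ev f Y ∧ ∀ i, (Y i).card = 2 := by
  obtain ⟨u, hu, i0, a0, a1, ha⟩ := exists_even h
  let S : Set (Fin 4 → Finset (Fin 6)) :=
    {Y | Ev f Y ∧ ∃ i, 0 < (Y i).card ∧ (Y i).card < 6}
  have hne : S.Nonempty := by
    have h01 : (u (i0, a0) = 1 ∧ u (i0, a1) ≠ 1) ∨ (u (i0, a1) = 1 ∧ u (i0, a0) ≠ 1) := by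
      revert ha
      generalize u (i0, a0) = z
      generalize u (i0, a1) = w
      revert z w
      decide
    refine ⟨fun i => univ.filter (fun a => u (i, a) = 1), ?_, i0, ?_, ?_⟩
    · intro b
      rw [← ZMod.natCast_eq_zero_iff_even]
      unfold cnt
      push_cast
      refine Eq.trans (sum_congr rfl fun k _ => ?_) (hu b)
      simp only [mem_filter, mem_univ, true_and]
      generalize u (k, f b k) = z
      revert z
      decide
    · rw [card_pos]
      rcases h01 with h | h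
      · exact ⟨a0, by simp [h.1]⟩
      · exact ⟨a1, by simp [h.1]⟩
    · rcases h01 with h | h
      · have := card_lt_univ_of_notMem (s := univ.filter (fun a => u (i0, a) = 1)) (x := a1)
          (by simp [h.2])
        simpa using this
      · have := card_lt_univ_of_notMem (s := univ.filter (fun a => u (i0, a) = 1)) (x := a0)
          (by simp [h.2])
        simpa using this
  obtain ⟨Y, ⟨hY, i1, hi1, hi1'⟩, hmin⟩ :=
    (measure (fun Y : Fin 4 → Finset (Fin 6) => ∑ i, (Y i).card)).wf.has_min S hne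
  have hC : ∀ i k : Fin 4, i ≠ k → (Y i).card + (Y k).card ≤ 6 := by
    intro i k hik
    have hmem : cpl Y i k ∈ S := by
      refine ⟨cpl_ev hY hik, i1, ?_⟩
      have hcc : ((Y i1)ᶜ).card = 6 - (Y i1).card := by rw [card_compl]; simp
      unfold cpl
      split_ifs
      · rw [hcc]; omega
      · exact ⟨hi1, hi1'⟩
    have hnot := hmin _ hmem
    have hle : ∑ l, (Y l).card ≤ ∑ l, (cpl Y i k l).card := by
      by_contra hlt
      exact hnot (not_le.mp hlt)
    rw [← Finset.add_sum_erase _ _ (mem_univ i), ← Finset.add_sum_erase _ _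
      (mem_erase.mpr ⟨hik.symm, mem_univ k⟩), ← Finset.add_sum_erase (univ : Finset (Fin 4))
      (fun l => (cpl Y i k l).card) (mem_univ i), ← Finset.add_sum_erase
      (univ.erase i) (fun l => (cpl Y i k l).card) (mem_erase.mpr ⟨hik.symm, mem_univ k⟩)] at hle
    have h1 : ∑ l ∈ (univ.erase i).erase k, (cpl Y i k l).card
        = ∑ l ∈ (univ.erase i).erase k, (Y l).card := by
      refine sum_congr rfl fun l hl => ?_
      have hlk := (mem_erase.mp hl).1
      have hli := (mem_erase.mp (mem_erase.mp hl).2).1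
      simp [cpl, hlk, hli]
    have h2 : (cpl Y i k i).card = 6 - (Y i).card := by
      simp [cpl, card_compl]
    have h3 : (cpl Y i k k).card = 6 - (Y k).card := by
      simp [cpl, card_compl]
    rw [h1, h2, h3] at hle
    have c1 : (Y i).card ≤ 6 := by simpa using card_le_univ (Y i)
    have c2 : (Y k).card ≤ 6 := by simpa using card_le_univ (Y k)
    omega
  have hA : ∀ i : Fin 4, ∃ r, ∑ k, (Y k).card = (Y i).card + (r + r) := by
    intro i
    obtain ⟨r, hr⟩ := even_sum h hY i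
    exact ⟨r, by rw [← hr]; exact (Finset.add_sum_erase _ _ (mem_univ i)).symm⟩
  have hB : ∀ i : Fin 4, 0 < (Y i).card → 6 + (Y i).card ≤ ∑ k, (Y k).card := by
    intro i hi
    obtain ⟨a, ha⟩ := card_pos.mp hi
    have h6 := six_le h hY ha
    have e := Finset.add_sum_erase (univ : Finset (Fin 4)) (fun l => (Y l).card) (mem_univ i)
    omega
  have hfin : ((Y 0).card = 2 ∧ (Y 1).card = 2 ∧ (Y 2).card = 2 ∧ (Y 3).card = 2) ∨
      ((Y 0).card = 4 ∧ (Y 1).card = 2 ∧ (Y 2).card = 2 ∧ (Y 3).card = 2) ∨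
      ((Y 0).card = 2 ∧ (Y 1).card = 4 ∧ (Y 2).card = 2 ∧ (Y 3).card = 2) ∨
      ((Y 0).card = 2 ∧ (Y 1).card = 2 ∧ (Y 2).card = 4 ∧ (Y 3).card = 2) ∨
      ((Y 0).card = 2 ∧ (Y 1).card = 2 ∧ (Y 2).card = 2 ∧ (Y 3).card = 4) := by
    have a0 := hA 0
    have a1 := hA 1
    have a2 := hA 2
    have a3 := hA 3
    have b0 := hB 0
    have b1 := hB 1
    have b2 := hB 2
    have b3 := hB 3
    have c01 := hC 0 1 (by decide)
    have c02 := hC 0 2 (by decide)
    have c03 := hC 0 3 (by decide)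
    have c12 := hC 1 2 (by decide)
    have c13 := hC 1 3 (by decide)
    have c23 := hC 2 3 (by decide)
    have hw : (0 < (Y 0).card ∧ (Y 0).card < 6) ∨ (0 < (Y 1).card ∧ (Y 1).card < 6) ∨
        (0 < (Y 2).card ∧ (Y 2).card < 6) ∨ (0 < (Y 3).card ∧ (Y 3).card < 6) := by
      clear a0 a1 a2 a3 b0 b1 b2 b3 hA hB hC c01 c02 c03 c12 c13 c23
      fin_cases i1
      · exact Or.inl ⟨hi1, hi1'⟩
      · exact Or.inr (Or.inl ⟨hi1, hi1'⟩)
      · exact Or.inr (Or.inr (Or.inl ⟨hi1, hi1'⟩))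
      · exact Or.inr (Or.inr (Or.inr ⟨hi1, hi1'⟩))
    simp only [Fin.sum_univ_four] at a0 a1 a2 a3 b0 b1 b2 b3
    exact arith _ _ _ _ a0 a1 a2 a3 b0 b1 b2 b3 c01 c02 c03 c12 c13 c23 hw
  rcases hfin with g | g | g | g | g
  · refine ⟨Y, hY, fun i => ?_⟩
    fin_cases i
    · exact g.1
    · exact g.2.1
    · exact g.2.2.1
    · exact g.2.2.2
  · exfalso
    refine no_four h hY (i := 0) g.1 fun k hk => ?_
    fin_cases k
    · exact absurd rfl hk
    · exact g.2.1
    · exact g.2.2.1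
    · exact g.2.2.2
  · exfalso
    refine no_four h hY (i := 1) g.2.1 fun k hk => ?_
    fin_cases k
    · exact g.1
    · exact absurd rfl hk
    · exact g.2.2.1
    · exact g.2.2.2
  · exfalso
    refine no_four h hY (i := 2) g.2.2.1 fun k hk => ?_
    fin_cases k
    · exact g.1
    · exact g.2.1
    · exact absurd rfl hk
    · exact g.2.2.2
  · exfalso
    refine no_four h hY (i := 3) g.2.2.2 fun k hk => ?_
    fin_cases k
    · exact g.1
    · exact g.2.1
    · exact g.2.2.1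
    · exact absurd rfl hk

end A

section D

variable {f : Fin 36 → Fin 4 → Fin 6} {Y : Fin 4 → Finset (Fin 6)}

theorem sum_erase (hc : ∀ i, (Y i).card = 2) (i : Fin 4) :
    ∑ k ∈ univ.erase i, (Y k).card = 6 := by
  rw [sum_congr rfl (fun k _ => hc k), sum_const]
  simp

theorem cnt_zero_of {b : Fin 36} (hb : ∀ i, f b i ∉ Y i) : cnt f Y b = 0 := by
  unfold cnt
  exact sum_eq_zero fun i _ => by simp [hb i]

theorem cnt_two_of (h : TD f) (hY : Ev f Y) (hc : ∀ i, (Y i).card = 2) {b : Fin 36}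
    (hb : ∃ i, f b i ∈ Y i) : cnt f Y b = 2 := by
  obtain ⟨i, hi⟩ := hb
  exact eq_two h hY (sum_erase hc i) hi

theorem univ4 : ∀ i j k l : Fin 4, i ≠ j → i ≠ k → i ≠ l → j ≠ k → j ≠ l → k ≠ l →
    (univ : Finset (Fin 4)) = {i, j, k, l} := by decide

theorem sum4 {α : Type*} [AddCommMonoid α] (g : Fin 4 → α) {i j k l : Fin 4} (h1 : i ≠ j)
    (h2 : i ≠ k) (h3 : i ≠ l) (h4 : j ≠ k) (h5 : j ≠ l) (h6 : k ≠ l) :
    ∑ x, g x = g i + (g j + (g k + g l)) := by
  rw [univ4 i j k l h1 h2 h3 h4 h5 h6, sum_insert, sum_insert, sum_insert, sum_singleton]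
  · simpa using h6
  · simp [h4, h5]
  · simp [h1, h2, h3]

/-- a block meeting `Y` which misses `Y` in two groups meets it in the others -/
theorem mem_other (h : TD f) (hY : Ev f Y) (hc : ∀ i, (Y i).card = 2) {b : Fin 36}
    (hb : ∃ i, f b i ∈ Y i) {i j k l : Fin 4} (h1 : i ≠ j)
    (h2 : i ≠ k) (h3 : i ≠ l) (h4 : j ≠ k) (h5 : j ≠ l) (h6 : k ≠ l) (hi : f b i ∉ Y i)
    (hj : f b j ∉ Y j) : f b k ∈ Y k ∧ f b l ∈ Y l := by
  have e := cnt_two_of h hY hc hb
  unfold cnt at e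
  rw [sum4 _ h1 h2 h3 h4 h5 h6, if_neg hi, if_neg hj] at e
  by_cases hk : f b k ∈ Y k <;> by_cases hl : f b l ∈ Y l <;> simp_all

/-- two points off `Y` joined by a block meeting `Y` -/
def U (f : Fin 36 → Fin 4 → Fin 6) (Y : Fin 4 → Finset (Fin 6)) (i : Fin 4) (a : Fin 6)
    (j : Fin 4) (c : Fin 6) : Prop :=
  ∃ b, f b i = a ∧ f b j = c ∧ a ∉ Y i ∧ c ∉ Y j ∧ ∃ k, f b k ∈ Y k

theorem U.symm {i j : Fin 4} {a c : Fin 6} (hU : U f Y i a j c) : U f Y j c i a := by
  obtain ⟨b, h1, h2, h3, h4, h5⟩ := hU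
  exact ⟨b, h2, h1, h4, h3, h5⟩

theorem card_yblocks (h : TD f) (hY : Ev f Y) (hc : ∀ i, (Y i).card = 2) {i : Fin 4} {a : Fin 6}
    (ha : a ∉ Y i) :
    ((univ.filter (fun b => f b i = a)).filter (fun b => ∃ k, f b k ∈ Y k)).card = 3 := by
  have h1 := cnt_sum h Y i a
  rw [if_neg ha, sum_erase hc] at h1
  have h2 : ∀ b ∈ univ.filter (fun b => f b i = a), cnt f Y b
      = if (∃ k, f b k ∈ Y k) then 2 else 0 := by
    intro b _
    split_ifs with hb
    · exact cnt_two_of h hY hc hb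
    · exact cnt_zero_of (by simpa using hb)
  rw [sum_congr rfl h2, ← sum_filter, sum_const, smul_eq_mul] at h1
  omega

theorem card_zblocks (h : TD f) (hY : Ev f Y) (hc : ∀ i, (Y i).card = 2) {i : Fin 4} {a : Fin 6}
    (ha : a ∉ Y i) :
    ((univ.filter (fun b => f b i = a)).filter (fun b => ¬ ∃ k, f b k ∈ Y k)).card = 3 := by
  have h1 := card_yblocks h hY hc ha
  have h2 := card_filter_add_card_filter_not (s := univ.filter (fun b => f b i = a))
    (fun b => ∃ k, f b k ∈ Y k)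
  rw [card_fiber h] at h2
  omega

theorem card_through (h : TD f) (hc : ∀ i, (Y i).card = 2) {i j : Fin 4} (hij : i ≠ j)
    (a : Fin 6) :
    ((univ.filter (fun b => f b i = a)).filter (fun b => f b j ∈ Y j)).card = 2 := by
  have h1 := sum_fiber h hij a (fun c => if c ∈ Y j then 1 else 0)
  rw [← sum_filter] at h1
  simpa [hc] using h1

theorem exU (h : TD f) (hY : Ev f Y) (hc : ∀ i, (Y i).card = 2) {i j : Fin 4} (hij : i ≠ j)
    {a : Fin 6} (ha : a ∉ Y i) :
    ∃ b, (univ.filter (fun b => f b i = a)).filter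
      (fun b => (∃ k, f b k ∈ Y k) ∧ f b j ∉ Y j) = {b} := by
  rw [← card_eq_one]
  have h1 := card_yblocks h hY hc ha
  have h2 := card_through h hc hij a
  generalize univ.filter (fun b => f b i = a) = s at h1 h2 ⊢
  have h3 := card_filter_add_card_filter_not
    (s := s.filter (fun b => ∃ k, f b k ∈ Y k)) (fun b => f b j ∈ Y j)
  rw [h1, filter_filter, filter_filter] at h3
  have h4 : (s.filter (fun b => (∃ k, f b k ∈ Y k) ∧ f b j ∈ Y j)).card = 2 := by
    rw [← h2]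
    congr 1
    ext b
    simp only [mem_filter]
    constructor
    · rintro ⟨h, _, h'⟩; exact ⟨h, h'⟩
    · rintro ⟨h, h'⟩; exact ⟨h, ⟨j, h'⟩, h'⟩
  omega

theorem exists_U (h : TD f) (hY : Ev f Y) (hc : ∀ i, (Y i).card = 2) {i j : Fin 4} (hij : i ≠ j)
    {a : Fin 6} (ha : a ∉ Y i) : ∃ c, U f Y i a j c := by
  obtain ⟨b, hb⟩ := exU h hY hc hij ha
  have hb' : b ∈ (univ.filter (fun b => f b i = a)).filter
      (fun b => (∃ k, f b k ∈ Y k) ∧ f b j ∉ Y j) := by rw [hb]; simp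
  simp only [mem_filter, mem_univ, true_and] at hb'
  exact ⟨f b j, b, hb'.1, rfl, ha, hb'.2.2, hb'.2.1⟩

theorem U_unique (h : TD f) (hY : Ev f Y) (hc : ∀ i, (Y i).card = 2) {i j : Fin 4} (hij : i ≠ j)
    {a c c' : Fin 6} (h1 : U f Y i a j c) (h2 : U f Y i a j c') : c = c' := by
  obtain ⟨b, e1, e2, e3, e4, e5⟩ := h1
  obtain ⟨b', e1', e2', e3', e4', e5'⟩ := h2
  obtain ⟨b0, hb0⟩ := exU h hY hc hij e3
  have m1 : b ∈ ({b0} : Finset (Fin 36)) := by
    rw [← hb0]; simp only [mem_filter, mem_univ, true_and]; exact ⟨e1, e5, e2 ▸ e4⟩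
  have m2 : b' ∈ ({b0} : Finset (Fin 36)) := by
    rw [← hb0]; simp only [mem_filter, mem_univ, true_and]; exact ⟨e1', e5', e2' ▸ e4'⟩
  rw [mem_singleton] at m1 m2
  rw [← e2, ← e2', m1, m2]

theorem three_two {S : Finset (Fin 6)} (hS : S.card = 2) {x y z : Fin 6} (hx : x ∈ S) (hy : y ∈ S)
    (hz : z ∈ S) (h1 : x ≠ y) (h2 : x ≠ z) (h3 : y ≠ z) : False := by
  have : ({x, y, z} : Finset (Fin 6)) ⊆ S := by
    intro w hw
    simp only [mem_insert, mem_singleton] at hw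
    rcases hw with rfl | rfl | rfl <;> assumption
  have h4 := card_le_card this
  rw [hS, card_insert_of_notMem (by simp [h1, h2]), card_insert_of_notMem (by simp [h3]),
    card_singleton] at h4
  omega

theorem eq_of (h : TD f) {i k : Fin 4} (hik : i ≠ k) {b b' : Fin 36} (h1 : f b i = f b' i)
    (h2 : f b k = f b' k) : b = b' := (h i k hik).1 (by simp [h1, h2])

theorem no_triangle (h : TD f) (hY : Ev f Y) (hc : ∀ i, (Y i).card = 2) {i j k l : Fin 4}
    (h1 : i ≠ j) (h2 : i ≠ k) (h3 : i ≠ l) (h4 : j ≠ k) (h5 : j ≠ l) (h6 : k ≠ l) {a c d : Fin 6}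
    (u1 : U f Y i a j c) (u2 : U f Y i a k d) (u3 : U f Y j c k d) : False := by
  obtain ⟨b1, p1, p2, p3, p4, p5⟩ := u1
  obtain ⟨b2, q1, q2, q3, q4, q5⟩ := u2
  obtain ⟨b3, r1, r2, r3, r4, r5⟩ := u3
  have m1 := mem_other h hY hc p5 h1 h2 h3 h4 h5 h6 (by rw [p1]; exact p3) (by rw [p2]; exact p4)
  have m2 := mem_other h hY hc q5 h2 h1 h3 h4.symm h6 h5 (by rw [q1]; exact q3)
    (by rw [q2]; exact q4)
  have m3 := mem_other h hY hc r5 h4 h1.symm h5 h2.symm h6 h3 (by rw [r1]; exact r3)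
    (by rw [r2]; exact r4)
  refine three_two (hc l) m1.2 m2.2 m3.2 ?_ ?_ ?_
  · intro e
    have : b1 = b2 := eq_of h h3 (by rw [p1, q1]) e
    apply q4; rw [← q2, ← this]; exact m1.1
  · intro e
    have : b1 = b3 := eq_of h h5 (by rw [p2, r1]) e
    apply p3; rw [← p1, this]; exact m3.1
  · intro e
    have : b2 = b3 := eq_of h h6 (by rw [q2, r2]) e
    apply q3; rw [← q1, this]; exact m3.1

/-- a set of points off `Y` closed under `U` has two points in every group -/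
theorem two_points (h : TD f) (hY : Ev f Y) (hc : ∀ i, (Y i).card = 2) (P : Fin 4 → Fin 6 → Prop)
    (hP : ∀ i a, P i a → a ∉ Y i)
    (hcl : ∀ i a j c, i ≠ j → P i a → U f Y i a j c → P j c) {i0 : Fin 4} {a0 : Fin 6}
    (h0 : P i0 a0) (i : Fin 4) : ∃ a a', a ≠ a' ∧ P i a ∧ P i a' := by
  obtain ⟨a, ha⟩ : ∃ a, P i a := by
    by_cases e : i0 = i
    · exact ⟨a0, e ▸ h0⟩
    · obtain ⟨c, hcU⟩ := exists_U h hY hc e (hP _ _ h0)
      exact ⟨c, hcl _ _ _ _ e h0 hcU⟩
  obtain ⟨j, k, l, h1, h2, h3, h4, h5, h6⟩ : ∃ j k l : Fin 4, i ≠ j ∧ i ≠ k ∧ i ≠ l ∧ j ≠ k ∧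
      j ≠ l ∧ k ≠ l := by
    clear ha hcl hP h0; revert i; decide
  obtain ⟨c, u1⟩ := exists_U h hY hc h1 (hP _ _ ha)
  obtain ⟨d, u2⟩ := exists_U h hY hc h2 (hP _ _ ha)
  have hcP := hcl _ _ _ _ h1 ha u1
  obtain ⟨e, u3⟩ := exists_U h hY hc h4 (hP _ _ hcP)
  have heP := hcl _ _ _ _ h4 hcP u3
  obtain ⟨a', u4⟩ := exists_U h hY hc h2.symm (hP _ _ heP)
  refine ⟨a, a', ?_, ha, hcl _ _ _ _ h2.symm heP u4⟩
  rintro rfl
  have : d = e := U_unique h hY hc h2 u2 u4.symm
  subst this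
  exact no_triangle h hY hc h1 h2 h3 h4 h5 h6 u1 u2 u3

end D

section E

variable {f : Fin 36 → Fin 4 → Fin 6} {Y : Fin 4 → Finset (Fin 6)}

theorem zcard (h : TD f) (hY : Ev f Y) (hc : ∀ i, (Y i).card = 2) (i : Fin 4) (a : Fin 6) :
    ((univ.filter (fun b => ¬ ∃ k, f b k ∈ Y k)).filter (fun b => f b i = a)).card
      = if a ∈ Y i then 0 else 3 := by
  split_ifs with ha
  · rw [card_eq_zero, filter_filter, filter_eq_empty_iff]
    rintro b _ ⟨h1, h2⟩
    exact h1 ⟨i, h2 ▸ ha⟩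
  · rw [← card_zblocks h hY hc ha, filter_filter, filter_filter]
    congr 1
    ext b
    simp only [mem_filter, and_comm]

theorem zsum (h : TD f) (hY : Ev f Y) (hc : ∀ i, (Y i).card = 2) (i : Fin 4) (g : Fin 6 → ℚ) :
    ∑ b ∈ univ.filter (fun b => ¬ ∃ k, f b k ∈ Y k), g (f b i)
      = ∑ a, (if a ∈ Y i then 0 else 3) * g a := by
  rw [← sum_fiberwise (univ.filter (fun b => ¬ ∃ k, f b k ∈ Y k)) (fun b => f b i)]
  refine sum_congr rfl fun a _ => ?_
  have h1 : ∀ b ∈ (univ.filter (fun b => ¬ ∃ k, f b k ∈ Y k)).filter (fun b => f b i = a),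
      g (f b i) = g a := by
    intro b hb; rw [(mem_filter.mp hb).2]
  rw [sum_congr rfl h1, sum_const, zcard h hY hc, nsmul_eq_mul]
  split_ifs <;> simp

theorem card_Z (h : TD f) (hY : Ev f Y) (hc : ∀ i, (Y i).card = 2) :
    (univ.filter (fun b => ¬ ∃ k, f b k ∈ Y k)).card = 12 := by
  have h1 := zsum h hY hc 0 (fun _ => 1)
  rw [sum_const] at h1
  have h2 : ∑ a, (if a ∈ Y 0 then (0 : ℚ) else 3) * 1 = 12 := by
    simp only [mul_one]
    have : ∀ a : Fin 6, (if a ∈ Y 0 then (0 : ℚ) else 3) = 3 - 3 * (if a ∈ Y 0 then 1 else 0) := by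
      intro a; split_ifs <;> norm_num
    rw [sum_congr rfl (fun a _ => this a), sum_sub_distrib, ← mul_sum]
    simp [hc]
    norm_num
  rw [h2] at h1
  have h3 : ((univ.filter (fun b => ¬ ∃ k, f b k ∈ Y k)).card : ℚ) = 12 := by simpa using h1
  exact_mod_cast h3

theorem card_Yt (hc : ∀ i, (Y i).card = 2) :
    (univ.filter (fun p : Fin 4 × Fin 6 => p.2 ∈ Y p.1)).card = 8 := by
  rw [card_filter, Fintype.sum_prod_type]
  simp [hc]

/-- the linear conditions -/
def Phi (f : Fin 36 → Fin 4 → Fin 6) (Y : Fin 4 → Finset (Fin 6)) :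
    (Fin 4 × Fin 6 → ℚ) →ₗ[ℚ] ({b // ¬ ∃ k, f b k ∈ Y k} → ℚ) ×
      ((Fin 4 → ℚ) × ({p : Fin 4 × Fin 6 // p.2 ∈ Y p.1} → ℚ)) where
  toFun v := (fun b => ∑ k, v (k, f b.1 k), (fun i => ∑ a, v (i, a), fun p => v p.1))
  map_add' v w := by
    ext <;> simp [sum_add_distrib]
  map_smul' c v := by
    ext <;> simp [mul_sum]

theorem exists_v (h : TD f) (hY : Ev f Y) (hc : ∀ i, (Y i).card = 2) :
    ∃ v : Fin 4 × Fin 6 → ℚ, v ≠ 0 ∧ (∀ b, (¬ ∃ k, f b k ∈ Y k) → ∑ k, v (k, f b k) = 0) ∧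
      (∀ i, ∑ a, v (i, a) = 0) ∧ ∀ i a, a ∈ Y i → v (i, a) = 0 := by
  have hfr : finrank ℚ (Fin 4 × Fin 6 → ℚ) = finrank ℚ (({b // ¬ ∃ k, f b k ∈ Y k} → ℚ) ×
      ((Fin 4 → ℚ) × ({p : Fin 4 × Fin 6 // p.2 ∈ Y p.1} → ℚ))) := by
    rw [Module.finrank_prod, Module.finrank_prod]
    simp only [Module.finrank_fintype_fun_eq_card, Fintype.card_subtype, card_Z h hY hc,
      card_Yt hc]
    simp
  have hns : ¬ Function.Surjective (Phi f Y) := by
    intro hs
    obtain ⟨v, hv⟩ := hs (0, (Pi.single 0 1, 0))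
    have v1 : ∀ b, (¬ ∃ k, f b k ∈ Y k) → ∑ k, v (k, f b k) = 0 := by
      intro b hb
      have := congrFun (congrArg Prod.fst hv) ⟨b, hb⟩
      simpa [Phi] using this
    have v2 : ∀ i, ∑ a, v (i, a) = (Pi.single 0 1 : Fin 4 → ℚ) i := by
      intro i
      have := congrFun (congrArg (fun z => z.2.1) hv) i
      simpa [Phi] using this
    have v3 : ∀ i a, a ∈ Y i → v (i, a) = 0 := by
      intro i a ha
      have := congrFun (congrArg (fun z => z.2.2) hv) ⟨(i, a), ha⟩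
      simpa [Phi] using this
    have e1 : ∑ b ∈ univ.filter (fun b => ¬ ∃ k, f b k ∈ Y k), ∑ k, v (k, f b k) = 0 :=
      sum_eq_zero fun b hb => v1 b (mem_filter.mp hb).2
    rw [sum_comm] at e1
    have e2 : ∀ k : Fin 4, ∑ b ∈ univ.filter (fun b => ¬ ∃ k, f b k ∈ Y k), v (k, f b k)
        = 3 * (Pi.single 0 1 : Fin 4 → ℚ) k := by
      intro k
      rw [zsum h hY hc k (fun a => v (k, a)), ← v2, mul_sum]
      refine sum_congr rfl fun a _ => ?_
      split_ifs with ha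
      · rw [v3 k a ha]; ring
      · rfl
    rw [sum_congr rfl (fun k _ => e2 k), ← mul_sum] at e1
    simp at e1
  have hni : ¬ Function.Injective (Phi f Y) := fun hi =>
    hns ((LinearMap.injective_iff_surjective_of_finrank_eq_finrank hfr).mp hi)
  rw [← LinearMap.ker_eq_bot, Submodule.eq_bot_iff] at hni
  push Not at hni
  obtain ⟨v, hv, hv0⟩ := hni
  rw [LinearMap.mem_ker] at hv
  refine ⟨v, hv0, ?_, ?_, ?_⟩
  · intro b hb
    have := congrFun (congrArg Prod.fst hv) ⟨b, hb⟩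
    simpa [Phi] using this
  · intro i
    have := congrFun (congrArg (fun z => z.2.1) hv) i
    simpa [Phi] using this
  · intro i a ha
    have := congrFun (congrArg (fun z => z.2.2) hv) ⟨(i, a), ha⟩
    simpa [Phi] using this

theorem ysum (h : TD f) (hY : Ev f Y) (hc : ∀ i, (Y i).card = 2) {i k : Fin 4} (hik : i ≠ k)
    {a c : Fin 6} (hU : U f Y i a k c) (g : Fin 6 → ℚ) (hg : ∀ x ∈ Y k, g x = 0) :
    ∑ b ∈ (univ.filter (fun b => f b i = a)).filter (fun b => ∃ l, f b l ∈ Y l), g (f b k)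
      = g c := by
  obtain ⟨b, e1, e2, e3, e4, e5⟩ := hU
  obtain ⟨b0, hb0⟩ := exU h hY hc hik e3
  have m1 : b ∈ ({b0} : Finset (Fin 36)) := by
    rw [← hb0]; simp only [mem_filter, mem_univ, true_and]; exact ⟨e1, e5, e2 ▸ e4⟩
  rw [mem_singleton] at m1
  subst m1
  rw [← sum_filter_add_sum_filter_not _ (fun b => f b k ∈ Y k)]
  rw [sum_eq_zero (s := filter (fun b => f b k ∈ Y k) _)
    (fun b hb => hg _ (mem_filter.mp hb).2), zero_add]
  generalize univ.filter (fun b => f b i = a) = s at hb0 ⊢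
  rw [filter_filter, hb0, sum_singleton, e2]

theorem main_eq (h : TD f) (hY : Ev f Y) (hc : ∀ i, (Y i).card = 2) {v : Fin 4 × Fin 6 → ℚ}
    (vZ : ∀ b, (¬ ∃ k, f b k ∈ Y k) → ∑ k, v (k, f b k) = 0) (vG : ∀ i, ∑ a, v (i, a) = 0)
    (vY : ∀ i a, a ∈ Y i → v (i, a) = 0) {i : Fin 4} {a : Fin 6} (ha : a ∉ Y i)
    (c : Fin 4 → Fin 6) (hcU : ∀ k, k ≠ i → U f Y i a k (c k)) :
    3 * v (i, a) = ∑ k ∈ univ.erase i, v (k, c k) := by
  have e1 : ∑ b ∈ (univ.filter (fun b => f b i = a)).filter (fun b => ¬ ∃ l, f b l ∈ Y l),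
      ∑ k, v (k, f b k) = 0 := sum_eq_zero fun b hb => vZ b (mem_filter.mp hb).2
  rw [sum_comm, ← Finset.add_sum_erase _ _ (mem_univ i)] at e1
  have e2 : ∑ b ∈ (univ.filter (fun b => f b i = a)).filter (fun b => ¬ ∃ l, f b l ∈ Y l),
      v (i, f b i) = 3 * v (i, a) := by
    have h1 : ∀ b ∈ (univ.filter (fun b => f b i = a)).filter (fun b => ¬ ∃ l, f b l ∈ Y l),
        v (i, f b i) = v (i, a) := by
      intro b hb; rw [(mem_filter.mp (mem_filter.mp hb).1).2]
    rw [sum_congr rfl h1, sum_const, card_zblocks h hY hc ha, nsmul_eq_mul]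
    norm_num
  have e3 : ∀ k ∈ univ.erase i, ∑ b ∈ (univ.filter (fun b => f b i = a)).filter
      (fun b => ¬ ∃ l, f b l ∈ Y l), v (k, f b k) = - v (k, c k) := by
    intro k hk
    have hik : i ≠ k := fun e => (mem_erase.mp hk).1 e.symm
    have h1 := ysum h hY hc hik (hcU k hik.symm) (fun x => v (k, x)) (fun x hx => vY k x hx)
    have h2 := sum_filter_add_sum_filter_not (univ.filter (fun b => f b i = a))
      (fun b => ∃ l, f b l ∈ Y l) (fun b => v (k, f b k))
    rw [sum_fiber h hik a (fun x => v (k, x)), vG, h1] at h2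
    linarith
  rw [e2, sum_congr rfl e3, sum_neg_distrib] at e1
  linarith

theorem closed (h : TD f) (hY : Ev f Y) (hc : ∀ i, (Y i).card = 2) {v : Fin 4 × Fin 6 → ℚ}
    (vZ : ∀ b, (¬ ∃ k, f b k ∈ Y k) → ∑ k, v (k, f b k) = 0) (vG : ∀ i, ∑ a, v (i, a) = 0)
    (vY : ∀ i a, a ∈ Y i → v (i, a) = 0) {m : ℚ} (hm : ∀ i a, a ∉ Y i → v (i, a) ≤ m)
    {i : Fin 4} {a : Fin 6} (ha : a ∉ Y i) (hv : v (i, a) = m) {j : Fin 4} {c : Fin 6}
    (hij : i ≠ j) (hU : U f Y i a j c) : v (j, c) = m := by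
  have hex : ∀ k, ∃ d, k ≠ i → U f Y i a k d := by
    intro k
    by_cases hk : k = i
    · exact ⟨0, fun h => absurd hk h⟩
    · obtain ⟨d, hd⟩ := exists_U h hY hc (Ne.symm hk) ha
      exact ⟨d, fun _ => hd⟩
  choose d hd using hex
  have e1 := main_eq h hY hc vZ vG vY ha d hd
  have hle : ∀ k ∈ univ.erase i, v (k, d k) ≤ m := by
    intro k hk
    obtain ⟨b, p1, p2, p3, p4, p5⟩ := hd k (mem_erase.mp hk).1
    exact hm _ _ p4
  have e2 : ∑ k ∈ univ.erase i, v (k, d k) = ∑ k ∈ univ.erase i, m := by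
    rw [← e1, hv, sum_const]
    simp
  have e3 := (Finset.sum_eq_sum_iff_of_le hle).mp e2 j (mem_erase.mpr ⟨hij.symm, mem_univ j⟩)
  rw [U_unique h hY hc hij hU (hd j hij.symm)]
  exact e3

end E

section G

variable {f : Fin 36 → Fin 4 → Fin 6} {Y : Fin 4 → Finset (Fin 6)}

theorem blk {v : Fin 4 × Fin 6 → ℚ} {m m' : ℚ} (hmm : m + m' = 0) (hne : m ≠ m') {b : Fin 36}
    (hs : ∑ k, v (k, f b k) = 0) (hv : ∀ k, v (k, f b k) = m ∨ v (k, f b k) = m')
    {i j k l : Fin 4} (h1 : i ≠ j) (h2 : i ≠ k) (h3 : i ≠ l) (h4 : j ≠ k) (h5 : j ≠ l)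
    (h6 : k ≠ l) (hi : v (i, f b i) = m) (hj : v (j, f b j) = m) :
    v (k, f b k) = m' ∧ v (l, f b l) = m' := by
  rw [sum4 (fun k => v (k, f b k)) h1 h2 h3 h4 h5 h6] at hs
  have hm' : m' = -m := by linarith
  have hm0 : m ≠ 0 := by
    intro h0
    apply hne
    rw [hm', h0]; simp
  rcases hv k with hk | hk <;> rcases hv l with hl | hl <;> rw [hi, hj, hk, hl] at hs
  · exfalso; apply hm0; linarith
  · exfalso; apply hm0; linarith
  · exfalso; apply hm0; linarith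
  · exact ⟨hk, hl⟩

theorem false_of_TD (h : TD f) : False := by
  obtain ⟨Y, hY, hc⟩ := exists_two h
  obtain ⟨v, v0, vZ, vG, vY⟩ := exists_v h hY hc
  let N : Finset (Fin 4 × Fin 6) := univ.filter (fun p => p.2 ∉ Y p.1)
  have hNmem : ∀ i a, a ∉ Y i → (i, a) ∈ N := fun i a ha => by simp [N, ha]
  have hcompl : ∀ i, ((Y i)ᶜ).card = 4 := by
    intro i; rw [card_compl, hc]; simp
  have hNne : N.Nonempty := by
    have : ((Y 0)ᶜ).Nonempty := by rw [← card_pos, hcompl]; norm_num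
    obtain ⟨a, ha⟩ := this
    exact ⟨(0, a), hNmem 0 a (by simpa using ha)⟩
  obtain ⟨pM, hpM, hM⟩ := exists_max_image N v hNne
  obtain ⟨pm, hpm, hmn⟩ := exists_min_image N v hNne
  obtain ⟨iM, aM⟩ := pM
  obtain ⟨im, am⟩ := pm
  have haM : aM ∉ Y iM := by simpa [N] using hpM
  have ham : am ∉ Y im := by simpa [N] using hpm
  set m := v (iM, aM) with hmdef
  set m' := v (im, am) with hm'def
  have hmax : ∀ i a, a ∉ Y i → v (i, a) ≤ m := fun i a ha => hM _ (hNmem i a ha)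
  have hmin : ∀ i a, a ∉ Y i → m' ≤ v (i, a) := fun i a ha => hmn _ (hNmem i a ha)
  have hne : m ≠ m' := by
    intro he
    have hconst : ∀ i a, a ∉ Y i → v (i, a) = m := fun i a ha =>
      le_antisymm (hmax i a ha) (he ▸ hmin i a ha)
    have h0 : (4 : ℚ) * m = 0 := by
      have e := vG 0
      rw [← Finset.sum_add_sum_compl (Y 0), sum_eq_zero (fun a ha => vY 0 a ha), zero_add,
        sum_congr rfl (fun a ha => hconst 0 a (by simpa using ha)), sum_const, hcompl,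
        nsmul_eq_mul] at e
      exact_mod_cast e
    have hm0 : m = 0 := by linarith
    apply v0
    funext p
    obtain ⟨i, a⟩ := p
    by_cases ha : a ∈ Y i
    · exact vY i a ha
    · rw [hconst i a ha, hm0]; rfl
  -- the two level sets
  have hC2 : ∀ i, ∃ a a', a ≠ a' ∧ (a ∉ Y i ∧ v (i, a) = m) ∧ (a' ∉ Y i ∧ v (i, a') = m) := by
    intro i
    refine two_points h hY hc (fun i a => a ∉ Y i ∧ v (i, a) = m) (fun i a ha => ha.1) ?_
      (i0 := iM) (a0 := aM) ⟨haM, rfl⟩ i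
    rintro i a j c hij ⟨ha, hv⟩ hU
    obtain ⟨b, p1, p2, p3, p4, p5⟩ := id hU
    exact ⟨p4, closed h hY hc vZ vG vY hmax ha hv hij hU⟩
  have hD2 : ∀ i, ∃ a a', a ≠ a' ∧ (a ∉ Y i ∧ v (i, a) = m') ∧ (a' ∉ Y i ∧ v (i, a') = m') := by
    intro i
    refine two_points h hY hc (fun i a => a ∉ Y i ∧ v (i, a) = m') (fun i a ha => ha.1) ?_
      (i0 := im) (a0 := am) ⟨ham, rfl⟩ i
    rintro i a j c hij ⟨ha, hv⟩ hU
    obtain ⟨b, p1, p2, p3, p4, p5⟩ := id hU
    refine ⟨p4, ?_⟩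
    have := closed h hY hc (v := fun p => - v p) (m := -m')
      (fun b hb => by rw [sum_neg_distrib, vZ b hb, neg_zero])
      (fun i => by rw [sum_neg_distrib, vG i, neg_zero])
      (fun i a ha => by rw [vY i a ha, neg_zero])
      (fun i a ha => neg_le_neg (hmin i a ha)) ha (by rw [hv]) hij hU
    linarith
  let C : Fin 4 → Finset (Fin 6) := fun i => univ.filter (fun a => a ∉ Y i ∧ v (i, a) = m)
  let D : Fin 4 → Finset (Fin 6) := fun i => univ.filter (fun a => a ∉ Y i ∧ v (i, a) = m')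
  have memC : ∀ i a, a ∈ C i ↔ a ∉ Y i ∧ v (i, a) = m := fun i a => by simp [C]
  have memD : ∀ i a, a ∈ D i ↔ a ∉ Y i ∧ v (i, a) = m' := fun i a => by simp [D]
  have cC : ∀ i, 1 < (C i).card := by
    intro i
    obtain ⟨a, a', haa, h1, h2⟩ := hC2 i
    exact one_lt_card.mpr ⟨a, (memC i a).mpr h1, a', (memC i a').mpr h2, haa⟩
  have cD : ∀ i, 1 < (D i).card := by
    intro i
    obtain ⟨a, a', haa, h1, h2⟩ := hD2 i
    exact one_lt_card.mpr ⟨a, (memD i a).mpr h1, a', (memD i a').mpr h2, haa⟩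
  have hdisj : ∀ i, Disjoint (C i) (D i) := by
    intro i
    rw [disjoint_left]
    intro a h1 h2
    exact hne (((memC i a).mp h1).2.symm.trans ((memD i a).mp h2).2)
  have hsub : ∀ i, C i ∪ D i ⊆ (Y i)ᶜ := by
    intro i a ha
    rw [mem_compl]
    rcases mem_union.mp ha with h1 | h1
    · exact ((memC i a).mp h1).1
    · exact ((memD i a).mp h1).1
  have hcards : ∀ i, (C i).card = 2 ∧ (D i).card = 2 ∧ C i ∪ D i = (Y i)ᶜ := by
    intro i
    have e1 := card_le_card (hsub i)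
    rw [card_union_of_disjoint (hdisj i), hcompl] at e1
    have := cC i
    have := cD i
    refine ⟨by omega, by omega, eq_of_subset_of_card_le (hsub i) ?_⟩
    rw [card_union_of_disjoint (hdisj i), hcompl]
    omega
  have hval : ∀ i a, a ∉ Y i → v (i, a) = m ∨ v (i, a) = m' := by
    intro i a ha
    have : a ∈ C i ∪ D i := by rw [(hcards i).2.2, mem_compl]; exact ha
    rcases mem_union.mp this with h1 | h1
    · exact Or.inl ((memC i a).mp h1).2
    · exact Or.inr ((memD i a).mp h1).2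
  have hmm : m + m' = 0 := by
    have e := vG 0
    rw [← Finset.sum_add_sum_compl (Y 0), sum_eq_zero (fun a ha => vY 0 a ha), zero_add,
      ← (hcards 0).2.2, sum_union (hdisj 0),
      sum_congr rfl (fun a ha => ((memC 0 a).mp ha).2),
      sum_congr (s₁ := D 0) rfl (fun a ha => ((memD 0 a).mp ha).2), sum_const, sum_const,
      (hcards 0).1, (hcards 0).2.1, nsmul_eq_mul, nsmul_eq_mul] at e
    push_cast at e
    linarith
  have hclC : ∀ {i j : Fin 4} {a c : Fin 6}, i ≠ j → a ∈ C i → U f Y i a j c → c ∈ C j := by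
    intro i j a c hij ha hU
    obtain ⟨b, p1, p2, p3, p4, p5⟩ := id hU
    exact (memC j c).mpr ⟨p4, closed h hY hc vZ vG vY hmax ((memC i a).mp ha).1
      ((memC i a).mp ha).2 hij hU⟩
  have n01 : (0 : Fin 4) ≠ 1 := by decide
  have n02 : (0 : Fin 4) ≠ 2 := by decide
  have n03 : (0 : Fin 4) ≠ 3 := by decide
  have n12 : (1 : Fin 4) ≠ 2 := by decide
  have n13 : (1 : Fin 4) ≠ 3 := by decide
  have n23 : (2 : Fin 4) ≠ 3 := by decide
  obtain ⟨a, ha⟩ : (C 0).Nonempty := card_pos.mp (by have := cC 0; omega)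
  have haY := ((memC 0 a).mp ha).1
  obtain ⟨c, hac⟩ := exists_U h hY hc n01 haY
  obtain ⟨d, had⟩ := exists_U h hY hc n02 haY
  have hcC := hclC n01 ha hac
  have hdC := hclC n02 ha had
  obtain ⟨c1, hc1, hc1c⟩ := exists_mem_ne (cC 1) c
  obtain ⟨d1, hd1, hd1d⟩ := exists_mem_ne (cC 2) d
  obtain ⟨e, hce⟩ := exists_U h hY hc n12 ((memC 1 c).mp hcC).1
  have heC := hclC n12 hcC hce
  have hed : e ≠ d := by
    rintro rfl
    exact no_triangle h hY hc n01 n02 n03 n12 n13 n23 hac had hce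
  have hed1 : e = d1 := by
    by_contra hne1
    exact three_two (hcards 2).1 hdC hd1 heC hd1d.symm hed.symm (Ne.symm hne1)
  subst hed1
  have hnU : ¬ U f Y 1 c1 2 e := by
    intro hU
    exact hc1c (U_unique h hY hc n12.symm hU.symm hce.symm)
  -- the three blocks
  obtain ⟨b01, hb01⟩ := (h 0 1 n01).2 (a, c1)
  obtain ⟨b02, hb02⟩ := (h 0 2 n02).2 (a, e)
  obtain ⟨b12, hb12⟩ := (h 1 2 n12).2 (c1, e)
  have q1 : f b01 0 = a := congrArg Prod.fst hb01
  have q2 : f b01 1 = c1 := congrArg Prod.snd hb01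
  have q3 : f b02 0 = a := congrArg Prod.fst hb02
  have q4 : f b02 2 = e := congrArg Prod.snd hb02
  have q5 : f b12 1 = c1 := congrArg Prod.fst hb12
  have q6 : f b12 2 = e := congrArg Prod.snd hb12
  have hc1Y := ((memC 1 c1).mp hc1).1
  have heY := ((memC 2 e).mp heC).1
  have z01 : ¬ ∃ k, f b01 k ∈ Y k := fun hex =>
    hc1c (U_unique h hY hc n01 ⟨b01, q1, q2, haY, hc1Y, hex⟩ hac)
  have z02 : ¬ ∃ k, f b02 k ∈ Y k := fun hex =>
    hd1d (U_unique h hY hc n02 ⟨b02, q3, q4, haY, heY, hex⟩ had)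
  have z12 : ¬ ∃ k, f b12 k ∈ Y k := fun hex => hnU ⟨b12, q5, q6, hc1Y, heY, hex⟩
  have hvals : ∀ b, (¬ ∃ k, f b k ∈ Y k) → ∀ k, v (k, f b k) = m ∨ v (k, f b k) = m' := by
    intro b hb k
    exact hval k _ fun hk => hb ⟨k, hk⟩
  have va : v (0, a) = m := ((memC 0 a).mp ha).2
  have vc : v (1, c1) = m := ((memC 1 c1).mp hc1).2
  have ve : v (2, e) = m := ((memC 2 e).mp heC).2
  have r01 := blk hmm hne (vZ b01 z01) (hvals b01 z01) n01 n02 n03 n12 n13 n23
    (by rw [q1]; exact va) (by rw [q2]; exact vc)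
  have r02 := blk hmm hne (vZ b02 z02) (hvals b02 z02) n02 n01 n03 n12.symm n23 n13
    (by rw [q3]; exact va) (by rw [q4]; exact ve)
  have r12 := blk hmm hne (vZ b12 z12) (hvals b12 z12) n12 n01.symm n13 n02.symm n23 n03
    (by rw [q5]; exact vc) (by rw [q6]; exact ve)
  have k01 : f b01 3 ∈ D 3 := (memD 3 _).mpr ⟨fun hk => z01 ⟨3, hk⟩, r01.2⟩
  have k02 : f b02 3 ∈ D 3 := (memD 3 _).mpr ⟨fun hk => z02 ⟨3, hk⟩, r02.2⟩
  have k12 : f b12 3 ∈ D 3 := (memD 3 _).mpr ⟨fun hk => z12 ⟨3, hk⟩, r12.2⟩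
  refine three_two (hcards 3).2.1 k01 k02 k12 ?_ ?_ ?_
  · intro e3
    have hbb : b01 = b02 := eq_of h n03 (by rw [q1, q3]) e3
    apply hne
    rw [← ve, ← q4, ← hbb]; exact r01.1
  · intro e3
    have hbb : b01 = b12 := eq_of h n13 (by rw [q2, q5]) e3
    apply hne
    rw [← ve, ← q6, ← hbb]; exact r01.1
  · intro e3
    have hbb : b02 = b12 := eq_of h n23 (by rw [q4, q6]) e3
    apply hne
    rw [← vc, ← q5, ← hbb]; exact r02.1

end G

end Tarry

/-- **Tarry (1900)**: there is no transversal design TD(4,6), i.e. there is no pair of orthogonal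
latin squares of order 6.  (Proof after D. R. Stinson, 1984: `F_2`-rank of the incidence matrix.) -/
theorem no_td46 (f : Fin 36 → Fin 4 → Fin 6)
    (h : ∀ i k : Fin 4, i < k → Function.Bijective fun b => (f b i, f b k)) : False := by
  refine Tarry.false_of_TD (f := f) fun i k hik => ?_
  rcases lt_or_gt_of_ne hik with hlt | hlt
  · exact h i k hlt
  · have h1 := h k i hlt
    exact (Equiv.prodComm (Fin 6) (Fin 6)).bijective.comp h1

end Pool.Agent.MP_72f993_co
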