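import Mathlib
import Pool.Agent.Lib.MP_72f993_co.Defs
import Pool.Agent.Lib.MP_72f993_co.Sudoku
import Pool.Agent.Lib.MP_72f993_co.Tarry

/-!
Rank six: there is no affine collection of four sudoku partitions and there are no two orthogonal
latin squares of order six.
-/

set_option autoImplicit false

open Finset

namespace Pool.Agent.MP_72f993_co

theorem not_good_six_four : ¬ Good 6 4 := by
  classical
  rintro ⟨X, T, _, _, _, _, L, P, h1, h2, h3, h4, h5, h6, h7, h8⟩
  have e : Fin 36 ≃ X := (Fintype.equivFinOfCardEq (h1.trans (by norm_num))).symm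
  have g : T ≃ Fin 6 := Fintype.equivFinOfCardEq h2
  apply no_td46 (fun b i => g (P i (e b)))
  intro i k hik
  constructor
  · intro b b' h
    simp only [Prod.mk.injEq, EmbeddingLike.apply_eq_iff_eq] at h
    obtain ⟨x, _, hx⟩ := h8 i k hik.ne (P i (e b)) (P k (e b))
    have a1 := hx (e b) ⟨rfl, rfl⟩
    have a2 := hx (e b') ⟨h.1.symm, h.2.symm⟩
    exact e.injective (a1.trans a2.symm)
  · rintro ⟨u, v⟩
    obtain ⟨x, hx, _⟩ := h8 i k hik.ne (g.symm u) (g.symm v)
    refine ⟨e.symm x, ?_⟩
    simp [hx.1, hx.2]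

theorem molsNumber_six_le : molsNumber 6 ≤ 1 := by
  classical
  apply csSup_le' 
  rintro r ⟨M, hM, hM'⟩
  by_contra hr
  push Not at hr
  let c : Fin r := ⟨0, by omega⟩
  let d : Fin r := ⟨1, by omega⟩
  have hcd : c ≠ d := by
    intro h
    simp [c, d, Fin.ext_iff] at h
  have e : Fin 36 ≃ Fin 6 × Fin 6 := (finCongr (by norm_num)).trans finProdFinEquiv.symm
  let f : Fin 6 × Fin 6 → Fin 4 → Fin 6 := fun p i =>
    match i with
    | 0 => p.1
    | 1 => p.2
    | 2 => M c p.1 p.2
    | 3 => M d p.1 p.2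
  have key : ∀ i k : Fin 4, i < k → Function.Injective fun p => (f p i, f p k) := by
    intro i k hik
    have hc := hM c
    have hd := hM d
    rintro ⟨x, y⟩ ⟨x', y'⟩ h
    simp only [Prod.mk.injEq] at h
    obtain ⟨h, h'⟩ := h
    fin_cases i <;> fin_cases k <;> simp at hik <;> simp only [f] at h h'
    · simp only [Prod.mk.injEq]
      exact ⟨h, h'⟩
    · subst h
      rw [(hc.1 x).1 h']
    · subst h
      rw [(hd.1 x).1 h']
    · subst h
      rw [(hc.2 y).1 h']
    · subst h
      rw [(hd.2 y).1 h']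
    · exact (hM' c d hcd).1 (Prod.ext h h')
  apply no_td46 (fun b => f (e b))
  intro i k hik
  have hinj : Function.Injective fun b => (f (e b) i, f (e b) k) := (key i k hik).comp e.injective
  exact (Fintype.bijective_iff_injective_and_card _).2 ⟨hinj, by simp⟩

theorem tau_six : tau 6 = 3 ∧ tau 6 = molsNumber 6 + 2 := by
  have h1 : 2 + 1 ≤ tau 6 := by
    apply le_tau_of_good (by norm_num) (by norm_num)
    apply good_macNeish 6 (by norm_num)
    intro p hp hp6
    calc 2 ≤ p := hp.two_le
      _ = p ^ 1 := (pow_one p).symm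
      _ ≤ p ^ (Nat.factorization 6 p) :=
        Nat.pow_le_pow_right hp.pos ((hp.dvd_iff_one_le_factorization (by norm_num)).1 hp6)
  have h2 : tau 6 ≤ 3 := by
    by_contra h
    push Not at h
    exact not_good_six_four ((good_tau (by norm_num)).mono h)
  have h3 := tau_le (m := 6) (by norm_num)
  have h4 := molsNumber_six_le
  omega

end Pool.Agent.MP_72f993_co
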